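import Pool.Agent.H14.C0.Basic

/-!
# Complemented copies of `c_0` in `c_0`, away from a subspace of infinite codimension
-/

open Filter Topology

namespace Pool.Agent.H14.C0

variable {𝕜 : Type*} [RCLike 𝕜]

theorem exists_annihilator {E : Type*} [NormedAddCommGroup E] [NormedSpace 𝕜 E]
    (H : Submodule 𝕜 E) (hH : IsClosed (H : Set E)) (hne : H ≠ ⊤) :
    ∃ f : E →L[𝕜] 𝕜, ‖f‖ = 1 ∧ ∀ h ∈ H, f h = 0 := by
  have : IsClosed (H : Set E) := hH
  have hnt : Nontrivial (E ⧸ H) := Submodule.Quotient.nontrivial_iff.2 hne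
  obtain ⟨q, hq⟩ := exists_ne (0 : E ⧸ H)
  obtain ⟨x, rfl⟩ := Submodule.Quotient.mk_surjective H q
  obtain ⟨g, hg1, hg2⟩ := exists_dual_vector 𝕜 (Submodule.Quotient.mk x : E ⧸ H)
    (norm_ne_zero_iff.2 hq)
  let f0 : E →L[𝕜] 𝕜 := g.comp H.mkQL
  have hf0 : ∀ y, f0 y = g (Submodule.Quotient.mk y) := fun y => rfl
  have hf0ne : f0 ≠ 0 := by
    intro h
    have h1 : f0 x = 0 := by rw [h]; rfl
    rw [hf0, hg2, RCLike.ofReal_eq_zero] at h1
    exact norm_ne_zero_iff.2 hq h1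
  have hn : ‖f0‖ ≠ 0 := norm_ne_zero_iff.2 hf0ne
  refine ⟨((‖f0‖ : 𝕜)⁻¹) • f0, ?_, fun h hh => ?_⟩
  · rw [norm_smul, norm_inv, RCLike.norm_ofReal, abs_norm, inv_mul_cancel₀ hn]
  · rw [_root_.smul_apply, hf0]
    have : (Submodule.Quotient.mk h : E ⧸ H) = 0 := (Submodule.Quotient.mk_eq_zero H).2 hh
    rw [this, map_zero, smul_zero]

/-- One step of the construction. -/
theorem absorb_step (G : Submodule 𝕜 (c0 𝕜)) (hG : IsClosed (G : Set (c0 𝕜)))
    (hinf : ¬ FiniteDimensional 𝕜 (c0 𝕜 ⧸ G)) (n : ℕ) :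
    ∃ (f : c0 𝕜 →L[𝕜] 𝕜) (x : c0 𝕜) (N : ℕ), n < N ∧ (∀ g ∈ G, f g = 0) ∧
      (∀ y, f (proj 𝕜 n y) = 0) ∧ ‖f‖ = 1 ∧ f x = 1 ∧ ‖x‖ ≤ 2 ∧ (∀ i, i < n → x i = 0) ∧
      (∀ i, N ≤ i → x i = 0) ∧ ∀ y, ‖f (y - proj 𝕜 N y)‖ ≤ 1 / 8 * ‖y‖ := by
  classical
  -- the functional
  obtain ⟨f, hf1, hfG, hfe⟩ : ∃ f : c0 𝕜 →L[𝕜] 𝕜, ‖f‖ = 1 ∧ (∀ g ∈ G, f g = 0) ∧
      ∀ j < n, f (e 𝕜 j) = 0 := by
    let W : Submodule 𝕜 (c0 𝕜) := Submodule.span 𝕜 ((Finset.range n).image (e 𝕜) : Finset (c0 𝕜))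
    have hW : FiniteDimensional 𝕜 W := FiniteDimensional.span_finset 𝕜 _
    have hcl : IsClosed ((G ⊔ W : Submodule 𝕜 (c0 𝕜)) : Set (c0 𝕜)) :=
      Submodule.isClosed_sup_finiteDimensional _ _ hG
    have hne : G ⊔ W ≠ ⊤ := by
      intro htop
      apply hinf
      have h1 : W.map G.mkQ = ⊤ := by
        have h2 : (G ⊔ W).map G.mkQ = ⊤ := by
          rw [htop, Submodule.map_top, Submodule.range_mkQ]
        rw [Submodule.map_sup] at h2
        have h3 : G.map G.mkQ = ⊥ := Submodule.mkQ_map_self G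
        rwa [h3, bot_sup_eq] at h2
      have h4 : FiniteDimensional 𝕜 (W.map G.mkQ) := inferInstance
      rw [h1] at h4
      exact (LinearEquiv.finiteDimensional (Submodule.topEquiv (R := 𝕜) (M := c0 𝕜 ⧸ G)))
    obtain ⟨f, hf1, hf2⟩ := exists_annihilator _ hcl hne
    refine ⟨f, hf1, fun g hg => hf2 g (Submodule.mem_sup_left hg), fun j hj => ?_⟩
    refine hf2 _ (Submodule.mem_sup_right (Submodule.subset_span ?_))
    exact Finset.mem_coe.2 (Finset.mem_image.2 ⟨j, Finset.mem_range.2 hj, rfl⟩)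
  have hfn : ∀ y, f (proj 𝕜 n y) = 0 := by
    intro y
    rw [proj_eq_sum, map_sum]
    refine Finset.sum_eq_zero fun j hj => ?_
    rw [map_smul, hfe j (Finset.mem_range.1 hj), smul_zero]
  -- the vector
  obtain ⟨x0, hx0, hfx0⟩ := f.exists_lt_apply_of_lt_opNorm (r := 1 / 2) (by rw [hf1]; norm_num)
  have h1 : Tendsto (fun N => ‖f (proj 𝕜 N x0)‖) atTop (𝓝 ‖f x0‖) :=
    ((f.continuous.tendsto x0).comp (proj_tendsto x0)).norm
  obtain ⟨m, hm⟩ := tail_small f (ε := 1 / 8) (by norm_num)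
  obtain ⟨N, ⟨hN1, hN2⟩, hN3⟩ := (((h1.eventually (lt_mem_nhds hfx0)).and
    (eventually_gt_atTop n)).and (eventually_ge_atTop m)).exists
  set x1 : c0 𝕜 := proj 𝕜 N x0 - proj 𝕜 n (proj 𝕜 N x0) with hx1
  have hfx1 : f x1 = f (proj 𝕜 N x0) := by rw [hx1, map_sub, hfn, sub_zero]
  have hx1i : ∀ i, x1 i = if n ≤ i ∧ i < N then x0 i else 0 := by
    intro i
    rw [hx1, c0_sub_apply, proj_apply, proj_apply, proj_apply]
    by_cases h1 : i < N <;> by_cases h2 : i < n <;> simp [h1, h2, not_le.2, not_lt.1]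
  have hx1n : ‖x1‖ ≤ 1 := by
    refine c0_norm_le zero_le_one fun i => ?_
    rw [hx1i]
    split_ifs
    · exact (norm_coe_le x0 i).trans hx0.le
    · simp
  have hfx1n : 1 / 2 < ‖f x1‖ := by rw [hfx1]; exact hN1
  have hne : f x1 ≠ 0 := norm_pos_iff.1 (lt_trans (by norm_num) hfx1n)
  refine ⟨f, (f x1)⁻¹ • x1, N, hN2, hfG, hfn, hf1, ?_, ?_, ?_, ?_, ?_⟩
  · rw [map_smul, smul_eq_mul, inv_mul_cancel₀ hne]
  · rw [norm_smul, norm_inv]
    calc ‖f x1‖⁻¹ * ‖x1‖ ≤ (1 / 2)⁻¹ * 1 := by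
          gcongr
      _ = 2 := by norm_num
  · intro i hi
    rw [c0_smul_apply, hx1i, if_neg (by omega), mul_zero]
  · intro i hi
    rw [c0_smul_apply, hx1i, if_neg (by omega), mul_zero]
  · intro y
    rw [apply_eq_tsum]
    have hs : Summable fun j => ‖(y - proj 𝕜 N y) j * f (e 𝕜 j)‖ := (summable_apply f _).norm
    have hle : ∀ j, ‖(y - proj 𝕜 N y) j * f (e 𝕜 j)‖ ≤ if j < N then 0 else ‖y‖ * ‖f (e 𝕜 j)‖ := by
      intro j
      rw [c0_sub_apply, proj_apply]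
      split_ifs with h
      · simp
      · rw [sub_zero, norm_mul]
        gcongr
        exact norm_coe_le y j
    have hs2 : Summable fun j => if j < N then 0 else ‖y‖ * ‖f (e 𝕜 j)‖ := by
      refine Summable.of_nonneg_of_le (fun j => ?_) (fun j => ?_) ((summable_norm_e f).mul_left ‖y‖)
      · split_ifs <;> positivity
      · split_ifs
        · positivity
        · exact le_rfl
    have h2 : ∑' j, (if j < N then 0 else ‖y‖ * ‖f (e 𝕜 j)‖) = ‖y‖ * ∑' j, ‖f (e 𝕜 (j + N))‖ := by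
      rw [← hs2.sum_add_tsum_nat_add N, ← tsum_mul_left]
      have h3 : ∑ j ∈ Finset.range N, (if j < N then 0 else ‖y‖ * ‖f (e 𝕜 j)‖) = 0 :=
        Finset.sum_eq_zero fun j hj => if_pos (Finset.mem_range.1 hj)
      rw [h3, zero_add]
      refine tsum_congr fun j => ?_
      rw [if_neg (by omega)]
    have h4 : ∑' j, ‖f (e 𝕜 (j + N))‖ ≤ ∑' j, ‖f (e 𝕜 (j + m))‖ := by
      obtain ⟨d, rfl⟩ := Nat.exists_eq_add_of_le hN3
      have hsm : Summable fun j => ‖f (e 𝕜 (j + m))‖ := (summable_nat_add_iff m).2 (summable_norm_e f)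
      have h5 := hsm.sum_add_tsum_nat_add d
      have h6 : 0 ≤ ∑ i ∈ Finset.range d, ‖f (e 𝕜 (i + m))‖ :=
        Finset.sum_nonneg fun _ _ => norm_nonneg _
      have h7 : ∑' j, ‖f (e 𝕜 (j + d + m))‖ = ∑' j, ‖f (e 𝕜 (j + (m + d)))‖ :=
        tsum_congr fun j => by rw [add_assoc, add_comm d m]
      rw [h7] at h5
      linarith
    calc ‖∑' j, (y - proj 𝕜 N y) j * f (e 𝕜 j)‖ ≤ ∑' j, ‖(y - proj 𝕜 N y) j * f (e 𝕜 j)‖ :=
          norm_tsum_le_tsum_norm hs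
      _ ≤ ∑' j, (if j < N then 0 else ‖y‖ * ‖f (e 𝕜 j)‖) := hs.tsum_le_tsum hle hs2
      _ = ‖y‖ * ∑' j, ‖f (e 𝕜 (j + N))‖ := h2
      _ ≤ ‖y‖ * (1 / 8) := by
          gcongr
          exact (h4.trans hm.le)
      _ = 1 / 8 * ‖y‖ := by ring

/-- The absorption data: a complemented copy of `c_0` whose projection kills `G`. -/
theorem absorption (G : Submodule 𝕜 (c0 𝕜)) (hG : IsClosed (G : Set (c0 𝕜)))
    (hinf : ¬ FiniteDimensional 𝕜 (c0 𝕜 ⧸ G)) :
    ∃ z φ : c0 𝕜 →L[𝕜] c0 𝕜, (∀ a, φ (z a) = a) ∧ ∀ g ∈ G, φ g = 0 := by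
  classical
  choose f x N hN hfG hfn hf1 hfx hxn hx1 hx2 hft using absorb_step G hG hinf
  -- the sequence of cut points
  let n : ℕ → ℕ := fun k => Nat.rec 0 (fun _ m => N m) k
  have hn0 : n 0 = 0 := rfl
  have hns : ∀ k, n (k + 1) = N (n k) := fun k => rfl
  have hnm : StrictMono n := strictMono_nat_of_lt_succ fun k => by rw [hns]; exact hN _
  have hex : ∀ i, ∃ k, n k ≤ i ∧ i < n (k + 1) := by
    intro i
    have hlt : ∃ k, i < n (k + 1) := ⟨i, lt_of_lt_of_le (Nat.lt_succ_self i)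
      (hnm.le_apply (x := i + 1))⟩
    refine ⟨Nat.find hlt, ?_, Nat.find_spec hlt⟩
    rcases Nat.eq_zero_or_pos (Nat.find hlt) with h0 | h0
    · rw [h0, hn0]; exact Nat.zero_le _
    · have h1 := Nat.find_min hlt (m := Nat.find hlt - 1) (by omega)
      have h2 : Nat.find hlt - 1 + 1 = Nat.find hlt := by omega
      rw [h2] at h1
      omega
  choose b hb1 hb2 using hex
  have hbu : ∀ i k, n k ≤ i → i < n (k + 1) → b i = k := by
    intro i k h1 h2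
    have h3 : b i < k + 1 := hnm.lt_iff_lt.1 ((hb1 i).trans_lt h2)
    have h4 : k < b i + 1 := hnm.lt_iff_lt.1 (h1.trans_lt (hb2 i))
    omega
  have hbt : Tendsto b atTop atTop := by
    rw [tendsto_atTop]
    intro k
    filter_upwards [eventually_ge_atTop (n k)] with i hi
    by_contra hlt
    push Not at hlt
    have := hb2 i
    have h2 : n (b i + 1) ≤ n k := hnm.monotone hlt
    omega
  -- the embedding
  have hz0 : ∀ a : c0 𝕜, Tendsto (fun i => (x (n (b i)) i) • a (b i)) atTop (𝓝 0) := by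
    intro a
    have h1 : Tendsto (fun i => ‖a (b i)‖) atTop (𝓝 0) := by
      have := ((c0_tendsto a).comp hbt).norm
      rw [norm_zero] at this
      exact this
    have h2 : Tendsto (fun i => 2 * ‖a (b i)‖) atTop (𝓝 0) := by
      have := h1.const_mul 2
      rwa [mul_zero] at this
    refine squeeze_zero_norm (fun i => ?_) h2
    rw [norm_smul]
    gcongr
    exact (norm_coe_le _ _).trans (hxn _)
  let z : c0 𝕜 →L[𝕜] c0 𝕜 := mkOp (fun i => (x (n (b i)) i) • (coord 𝕜 (b i) : c0 𝕜 →ₗ[𝕜] 𝕜)) 2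
    (by norm_num) (fun i a => by
      change ‖(x (n (b i)) i) • a (b i)‖ ≤ 2 * ‖a‖
      rw [norm_smul]
      exact mul_le_mul ((norm_coe_le _ _).trans (hxn _)) (norm_coe_le _ _) (norm_nonneg _)
        (by norm_num)) hz0
  have hz : ∀ a i, z a i = x (n (b i)) i * a (b i) := fun a i => rfl
  have hzn : ‖z‖ ≤ 2 := norm_mkOp_le _ _ _ _ _
  -- the functionals
  have hfk : ∀ k y, ‖f (n k) y‖ ≤ ‖y - proj 𝕜 (n k) y‖ := by
    intro k y
    have h1 : f (n k) y = f (n k) (y - proj 𝕜 (n k) y) := by rw [map_sub, hfn, sub_zero]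
    rw [h1]
    calc ‖f (n k) (y - proj 𝕜 (n k) y)‖ ≤ ‖f (n k)‖ * ‖y - proj 𝕜 (n k) y‖ := (f (n k)).le_opNorm _
      _ = _ := by rw [hf1, one_mul]
  have hφ0t : ∀ y : c0 𝕜, Tendsto (fun k => f (n k) y) atTop (𝓝 0) := by
    intro y
    have h1 : Tendsto (fun k => ‖y - proj 𝕜 (n k) y‖) atTop (𝓝 0) := by
      have h2 := (tendsto_const_nhds (x := y)).sub ((proj_tendsto y).comp hnm.tendsto_atTop)
      have h3 := h2.norm
      rw [sub_self, norm_zero] at h3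
      exact h3
    exact squeeze_zero_norm (fun k => hfk k y) h1
  let φ0 : c0 𝕜 →L[𝕜] c0 𝕜 := mkOp (fun k => (f (n k) : c0 𝕜 →ₗ[𝕜] 𝕜)) 1 zero_le_one
    (fun k y => by
      change ‖f (n k) y‖ ≤ 1 * ‖y‖
      calc ‖f (n k) y‖ ≤ ‖f (n k)‖ * ‖y‖ := (f (n k)).le_opNorm _
        _ = _ := by rw [hf1]) hφ0t
  have hφ0 : ∀ y k, φ0 y k = f (n k) y := fun y k => rfl
  -- the composition is a small perturbation of the identity
  have hcomp : ∀ a k, ‖a k - φ0 (z a) k‖ ≤ 1 / 4 * ‖a‖ := by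
    intro a k
    have h1 : proj 𝕜 (n (k + 1)) (z a) - proj 𝕜 (n k) (z a) = a k • x (n k) := by
      ext i
      rw [c0_sub_apply, proj_apply, proj_apply, c0_smul_apply]
      rcases lt_or_ge i (n k) with hi | hi
      · have : i < n (k + 1) := hi.trans (hnm (Nat.lt_succ_self k))
        rw [if_pos this, if_pos hi, sub_self, hx1 (n k) i hi, mul_zero]
      · rcases lt_or_ge i (n (k + 1)) with hi2 | hi2
        · rw [if_pos hi2, if_neg (not_lt.2 hi), sub_zero, hz, hbu i k hi hi2, mul_comm]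
        · rw [if_neg (not_lt.2 hi2), if_neg (not_lt.2 hi), sub_zero, hx2 (n k) i hi2, mul_zero]
    have h2 : φ0 (z a) k = a k + f (n k) (z a - proj 𝕜 (n (k + 1)) (z a)) := by
      rw [hφ0]
      have h3 : z a = proj 𝕜 (n k) (z a) + a k • x (n k) + (z a - proj 𝕜 (n (k + 1)) (z a)) := by
        rw [← h1]; abel
      conv_lhs => rw [h3]
      rw [map_add, map_add, hfn, zero_add, map_smul, hfx, smul_eq_mul, mul_one]
    rw [h2]
    have h4 : a k - (a k + f (n k) (z a - proj 𝕜 (n (k + 1)) (z a))) =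
        -(f (n k) (z a - proj 𝕜 (N (n k)) (z a))) := by rw [hns]; ring
    rw [h4, norm_neg]
    refine (hft (n k) (z a)).trans ?_
    have h5 : ‖z a‖ ≤ 2 * ‖a‖ := (z.le_opNorm a).trans (by gcongr)
    linarith
  let A : c0 𝕜 →L[𝕜] c0 𝕜 := φ0.comp z
  have hA : ‖(1 : c0 𝕜 →L[𝕜] c0 𝕜) - A‖ ≤ 1 / 4 := by
    refine ContinuousLinearMap.opNorm_le_bound _ (by norm_num) fun a => ?_
    refine c0_norm_le (by positivity) fun k => ?_
    exact hcomp a k
  let u := Units.oneSub ((1 : c0 𝕜 →L[𝕜] c0 𝕜) - A) (lt_of_le_of_lt hA (by norm_num))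
  have hu : (u : c0 𝕜 →L[𝕜] c0 𝕜) = A := by
    change 1 - (1 - A) = A
    abel
  let B : c0 𝕜 →L[𝕜] c0 𝕜 := (u⁻¹ : Units _)
  have hBA : ∀ a, B (A a) = a := by
    intro a
    have h1 : (B * A) = 1 := by rw [← hu]; exact u.inv_mul
    calc B (A a) = (B * A) a := rfl
      _ = a := by rw [h1]; rfl
  refine ⟨z, B.comp φ0, fun a => hBA a, fun g hg => ?_⟩
  have h1 : φ0 g = 0 := by
    ext k
    rw [hφ0, hfG (n k) g hg, c0_zero_apply]
  change B (φ0 g) = 0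
  rw [h1, map_zero]

end Pool.Agent.H14.C0
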