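import Mathlib

/-!
# The Banach space `c_0`
-/

open Filter Topology
open scoped ZeroAtInfty

namespace Pool.Agent.H14.C0

/-- The Banach space of sequences converging to `0`. -/
def c0 (𝕜 : Type*) [RCLike 𝕜] : Type _ := C₀(ℕ, 𝕜)

variable {𝕜 : Type*} [RCLike 𝕜]

noncomputable instance : NormedAddCommGroup (c0 𝕜) := inferInstanceAs (NormedAddCommGroup C₀(ℕ, 𝕜))

noncomputable instance : NormedSpace 𝕜 (c0 𝕜) := inferInstanceAs (NormedSpace 𝕜 C₀(ℕ, 𝕜))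

instance : CompleteSpace (c0 𝕜) := inferInstanceAs (CompleteSpace C₀(ℕ, 𝕜))

instance : CoeFun (c0 𝕜) (fun _ => ℕ → 𝕜) := ⟨fun f => (f : C₀(ℕ, 𝕜)).toFun⟩

@[simp] theorem c0_add_apply (f g : c0 𝕜) (i : ℕ) : (f + g) i = f i + g i := rfl

@[simp] theorem c0_sub_apply (f g : c0 𝕜) (i : ℕ) : (f - g) i = f i - g i := rfl

@[simp] theorem c0_neg_apply (f : c0 𝕜) (i : ℕ) : (-f) i = -f i := rfl

@[simp] theorem c0_smul_apply (c : 𝕜) (f : c0 𝕜) (i : ℕ) : (c • f) i = c * f i := rfl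

@[simp] theorem c0_zero_apply (i : ℕ) : (0 : c0 𝕜) i = 0 := rfl

@[ext] theorem c0_ext {f g : c0 𝕜} (h : ∀ i, f i = g i) : f = g :=
  ZeroAtInftyContinuousMap.ext h

theorem c0_tendsto (f : c0 𝕜) : Tendsto (fun i => f i) atTop (𝓝 0) := by
  have := (f : C₀(ℕ, 𝕜)).zero_at_infty'
  rw [cocompact_eq_cofinite, Nat.cofinite_eq_atTop] at this
  exact this

/-- Constructor. -/
def mk0 (f : ℕ → 𝕜) (hf : Tendsto f atTop (𝓝 0)) : c0 𝕜 :=
  ({ toFun := f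
     continuous_toFun := continuous_of_discreteTopology
     zero_at_infty' := by
      rw [cocompact_eq_cofinite, Nat.cofinite_eq_atTop]
      exact hf } : C₀(ℕ, 𝕜))

@[simp] theorem mk0_apply (f : ℕ → 𝕜) (hf : Tendsto f atTop (𝓝 0)) (i : ℕ) : mk0 f hf i = f i := rfl

theorem norm_coe_le (f : c0 𝕜) (i : ℕ) : ‖f i‖ ≤ ‖f‖ := by
  have h : ‖f‖ = ‖ZeroAtInftyContinuousMap.toBCF (f : C₀(ℕ, 𝕜))‖ :=
    ZeroAtInftyContinuousMap.norm_toBCF_eq_norm.symm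
  rw [h]
  exact (ZeroAtInftyContinuousMap.toBCF (f : C₀(ℕ, 𝕜))).norm_coe_le_norm i

theorem c0_norm_le {f : c0 𝕜} {C : ℝ} (hC : 0 ≤ C) (h : ∀ i, ‖f i‖ ≤ C) : ‖f‖ ≤ C := by
  have h' : ‖f‖ = ‖ZeroAtInftyContinuousMap.toBCF (f : C₀(ℕ, 𝕜))‖ :=
    ZeroAtInftyContinuousMap.norm_toBCF_eq_norm.symm
  rw [h']
  exact (BoundedContinuousFunction.norm_le hC).2 h

/-- The identity, as a linear homeomorphism. -/
noncomputable def c0Equiv (𝕜 : Type*) [RCLike 𝕜] : c0 𝕜 ≃L[𝕜] C₀(ℕ, 𝕜) :=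
  ContinuousLinearEquiv.refl 𝕜 C₀(ℕ, 𝕜)

/-- The norm of a nonzero element is attained. -/
theorem exists_norm_eq (f : c0 𝕜) (hf : f ≠ 0) : ∃ i, ‖f i‖ = ‖f‖ := by
  by_contra hcon
  push Not at hcon
  have hlt : ∀ i, ‖f i‖ < ‖f‖ := fun i => lt_of_le_of_ne (norm_coe_le f i) (hcon i)
  have hpos : 0 < ‖f‖ := norm_pos_iff.2 hf
  have h1 := (c0_tendsto f).norm
  rw [norm_zero] at h1
  obtain ⟨N, hN⟩ := eventually_atTop.1 (h1.eventually (gt_mem_nhds (half_pos hpos)))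
  -- the maximum over the first coordinates
  obtain ⟨C, hC1, hC2⟩ : ∃ C < ‖f‖, ∀ i < N, ‖f i‖ ≤ C := by
    rcases Nat.eq_zero_or_pos N with h0 | h0
    · exact ⟨0, hpos, fun i hi => by omega⟩
    · obtain ⟨i, _, hi2⟩ := Finset.exists_max_image (Finset.range N) (fun i => ‖f i‖)
        ⟨0, Finset.mem_range.2 h0⟩
      exact ⟨‖f i‖, hlt i, fun j hj => hi2 j (Finset.mem_range.2 hj)⟩
  have h2 : ‖f‖ ≤ max C (‖f‖ / 2) := by
    refine c0_norm_le (le_max_of_le_right (by positivity)) fun i => ?_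
    rcases lt_or_ge i N with h | h
    · exact le_max_of_le_left (hC2 i h)
    · exact le_max_of_le_right (hN i h).le
  have h3 : max C (‖f‖ / 2) < ‖f‖ := max_lt hC1 (by linarith)
  linarith

/-- Builder for bounded operators into `c_0`. -/
noncomputable def mkOp {X : Type*} [NormedAddCommGroup X] [NormedSpace 𝕜 X] (φ : ℕ → X →ₗ[𝕜] 𝕜)
    (C : ℝ) (hC : 0 ≤ C) (hφ : ∀ i x, ‖φ i x‖ ≤ C * ‖x‖)
    (h0 : ∀ x, Tendsto (fun i => φ i x) atTop (𝓝 0)) : X →L[𝕜] c0 𝕜 :=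
  LinearMap.mkContinuous
    { toFun := fun x => mk0 (fun i => φ i x) (h0 x)
      map_add' := fun x y => by ext i; simp
      map_smul' := fun c x => by ext i; simp } C
    (fun x => c0_norm_le (by positivity) fun i => hφ i x)

@[simp] theorem mkOp_apply {X : Type*} [NormedAddCommGroup X] [NormedSpace 𝕜 X]
    (φ : ℕ → X →ₗ[𝕜] 𝕜) (C : ℝ) (hC : 0 ≤ C) (hφ : ∀ i x, ‖φ i x‖ ≤ C * ‖x‖)
    (h0 : ∀ x, Tendsto (fun i => φ i x) atTop (𝓝 0)) (x : X) (i : ℕ) :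
    mkOp φ C hC hφ h0 x i = φ i x := rfl

theorem norm_mkOp_le {X : Type*} [NormedAddCommGroup X] [NormedSpace 𝕜 X]
    (φ : ℕ → X →ₗ[𝕜] 𝕜) (C : ℝ) (hC : 0 ≤ C) (hφ : ∀ i x, ‖φ i x‖ ≤ C * ‖x‖)
    (h0 : ∀ x, Tendsto (fun i => φ i x) atTop (𝓝 0)) : ‖mkOp φ C hC hφ h0‖ ≤ C :=
  LinearMap.mkContinuous_norm_le _ hC _

/-- Coordinate functionals. -/
noncomputable def coord (𝕜 : Type*) [RCLike 𝕜] (i : ℕ) : c0 𝕜 →L[𝕜] 𝕜 :=
  LinearMap.mkContinuous
    { toFun := fun f => f i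
      map_add' := fun _ _ => rfl
      map_smul' := fun _ _ => rfl } 1 (fun f => by rw [one_mul]; exact norm_coe_le f i)

@[simp] theorem coord_apply (i : ℕ) (f : c0 𝕜) : coord 𝕜 i f = f i := rfl

/-- Unit vectors. -/
noncomputable def e (𝕜 : Type*) [RCLike 𝕜] (j : ℕ) : c0 𝕜 :=
  mk0 (fun i => if i = j then 1 else 0) (by
    refine tendsto_const_nhds.congr' ?_
    filter_upwards [eventually_gt_atTop j] with i hi
    rw [if_neg hi.ne'])

@[simp] theorem e_apply (i j : ℕ) : e 𝕜 j i = if i = j then 1 else 0 := rfl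

theorem norm_e (j : ℕ) : ‖e 𝕜 j‖ = 1 := by
  refine le_antisymm (c0_norm_le zero_le_one fun i => ?_) ?_
  · rw [e_apply]; split_ifs <;> simp
  · have := norm_coe_le (e 𝕜 j) j
    simpa using this

/-- The coordinate projections. -/
noncomputable def proj (𝕜 : Type*) [RCLike 𝕜] (N : ℕ) : c0 𝕜 →L[𝕜] c0 𝕜 :=
  mkOp (fun i => if i < N then (coord 𝕜 i : c0 𝕜 →ₗ[𝕜] 𝕜) else 0) 1 zero_le_one
    (fun i x => by
      rw [one_mul]
      split_ifs
      · exact norm_coe_le x i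
      · simp)
    (fun x => by
      refine tendsto_const_nhds.congr' ?_
      filter_upwards [eventually_ge_atTop N] with i hi
      rw [if_neg (not_lt.2 hi)]
      rfl)

theorem proj_apply (N : ℕ) (f : c0 𝕜) (i : ℕ) : proj 𝕜 N f i = if i < N then f i else 0 := by
  unfold proj
  rw [mkOp_apply]
  split_ifs <;> rfl

theorem norm_proj_le (N : ℕ) : ‖proj 𝕜 N‖ ≤ 1 := norm_mkOp_le _ _ _ _ _

theorem proj_tendsto (f : c0 𝕜) : Tendsto (fun N => proj 𝕜 N f) atTop (𝓝 f) := by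
  rw [tendsto_iff_norm_sub_tendsto_zero]
  rw [Metric.tendsto_atTop]
  intro ε hε
  have h1 := (c0_tendsto f).norm
  rw [norm_zero] at h1
  obtain ⟨N, hN⟩ := eventually_atTop.1 (h1.eventually (gt_mem_nhds (half_pos hε)))
  refine ⟨N, fun n hn => ?_⟩
  rw [dist_zero_right, norm_norm]
  refine lt_of_le_of_lt (c0_norm_le (C := ε / 2) (by positivity) fun i => ?_) (by linarith)
  rw [c0_sub_apply, proj_apply]
  split_ifs with h
  · simp; positivity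
  · rw [zero_sub, norm_neg]
    exact (hN i (by omega)).le

theorem proj_eq_sum (N : ℕ) (f : c0 𝕜) : proj 𝕜 N f = ∑ j ∈ Finset.range N, f j • e 𝕜 j := by
  have h1 : ∀ i, (∑ j ∈ Finset.range N, f j • e 𝕜 j) i = ∑ j ∈ Finset.range N, f j * (if i = j then 1 else 0) := by
    intro i
    have h2 : (∑ j ∈ Finset.range N, f j • e 𝕜 j) i = coord 𝕜 i (∑ j ∈ Finset.range N, f j • e 𝕜 j) := rfl
    rw [h2, map_sum]
    refine Finset.sum_congr rfl fun j _ => ?_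
    rw [map_smul, smul_eq_mul]
    rfl
  ext i
  rw [h1, proj_apply]
  simp only [mul_ite, mul_one, mul_zero]
  rw [Finset.sum_ite_eq]
  simp only [Finset.mem_range]

/-- Two continuous linear maps on `c_0` agreeing on the unit vectors agree. -/
theorem clm_eq_of_e {X : Type*} [NormedAddCommGroup X] [NormedSpace 𝕜 X] (A B : c0 𝕜 →L[𝕜] X)
    (h : ∀ j, A (e 𝕜 j) = B (e 𝕜 j)) : A = B := by
  ext f
  have h1 := (A.continuous.tendsto f).comp (proj_tendsto f)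
  have h2 := (B.continuous.tendsto f).comp (proj_tendsto f)
  refine tendsto_nhds_unique h1 (h2.congr fun N => ?_)
  simp only [Function.comp_apply, proj_eq_sum, map_sum, map_smul, h]

/-- Absolute summability of the values of a functional on the unit vectors. -/
theorem sum_norm_e_le (f : c0 𝕜 →L[𝕜] 𝕜) (s : Finset ℕ) : ∑ j ∈ s, ‖f (e 𝕜 j)‖ ≤ ‖f‖ := by
  classical
  -- unimodular coefficients
  have hc : ∀ j, ∃ c : 𝕜, ‖c‖ ≤ 1 ∧ c * f (e 𝕜 j) = ‖f (e 𝕜 j)‖ := by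
    intro j
    rcases eq_or_ne (f (e 𝕜 j)) 0 with h0 | h0
    · exact ⟨0, by simp, by rw [h0]; simp⟩
    · have hn : (‖f (e 𝕜 j)‖ : 𝕜) ≠ 0 := by
        rw [Ne, RCLike.ofReal_eq_zero]; exact norm_ne_zero_iff.2 h0
      refine ⟨(starRingEnd 𝕜) (f (e 𝕜 j)) / ‖f (e 𝕜 j)‖, ?_, ?_⟩
      · rw [norm_div, RCLike.norm_conj, RCLike.norm_ofReal, abs_norm,
          div_self (norm_ne_zero_iff.2 h0)]
      · rw [div_mul_eq_mul_div, RCLike.conj_mul, div_eq_iff hn]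
        ring
  choose c hc1 hc2 using hc
  set x : c0 𝕜 := ∑ j ∈ s, c j • e 𝕜 j with hx
  have hxi : ∀ i, x i = if i ∈ s then c i else 0 := by
    intro i
    have h2 : x i = coord 𝕜 i x := rfl
    rw [h2, hx, map_sum]
    simp only [map_smul, smul_eq_mul, coord_apply, e_apply, mul_ite, mul_one, mul_zero]
    rw [Finset.sum_ite_eq]
  have hxn : ‖x‖ ≤ 1 := by
    refine c0_norm_le zero_le_one fun i => ?_
    rw [hxi]
    split_ifs
    · exact hc1 i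
    · simp
  have h1 : f x = ((∑ j ∈ s, ‖f (e 𝕜 j)‖ : ℝ) : 𝕜) := by
    rw [hx, map_sum, RCLike.ofReal_sum]
    refine Finset.sum_congr rfl fun j _ => ?_
    rw [map_smul, smul_eq_mul, hc2]
  have h2 : ‖f x‖ ≤ ‖f‖ := by
    calc ‖f x‖ ≤ ‖f‖ * ‖x‖ := f.le_opNorm x
      _ ≤ ‖f‖ * 1 := by gcongr
      _ = ‖f‖ := mul_one _
  rw [h1, RCLike.norm_ofReal] at h2
  exact (le_abs_self _).trans h2

theorem summable_norm_e (f : c0 𝕜 →L[𝕜] 𝕜) : Summable fun j => ‖f (e 𝕜 j)‖ :=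
  summable_of_sum_le (fun _ => norm_nonneg _) (sum_norm_e_le f)

theorem tsum_norm_e_le (f : c0 𝕜 →L[𝕜] 𝕜) : ∑' j, ‖f (e 𝕜 j)‖ ≤ ‖f‖ :=
  (summable_norm_e f).tsum_le_of_sum_le (sum_norm_e_le f)

theorem summable_apply (f : c0 𝕜 →L[𝕜] 𝕜) (x : c0 𝕜) : Summable fun j => x j * f (e 𝕜 j) := by
  refine Summable.of_norm ?_
  refine Summable.of_nonneg_of_le (fun _ => norm_nonneg _) (fun j => ?_)
    ((summable_norm_e f).mul_left ‖x‖)
  rw [norm_mul]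
  gcongr
  exact norm_coe_le x j

theorem apply_eq_tsum (f : c0 𝕜 →L[𝕜] 𝕜) (x : c0 𝕜) : f x = ∑' j, x j * f (e 𝕜 j) := by
  have h1 := (f.continuous.tendsto x).comp (proj_tendsto x)
  have h2 := (summable_apply f x).hasSum.tendsto_sum_nat
  refine tendsto_nhds_unique h1 (h2.congr fun N => ?_)
  rw [Function.comp_apply, proj_eq_sum, map_sum]
  exact Finset.sum_congr rfl fun j _ => by rw [map_smul, smul_eq_mul]

/-- Tails of a functional are small. -/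
theorem tail_small (f : c0 𝕜 →L[𝕜] 𝕜) {ε : ℝ} (hε : 0 < ε) :
    ∃ m, ∑' j, ‖f (e 𝕜 (j + m))‖ < ε := by
  have h1 := tendsto_sum_nat_add fun j => ‖f (e 𝕜 j)‖
  obtain ⟨m, hm⟩ := (h1.eventually (gt_mem_nhds hε)).exists
  exact ⟨m, hm⟩

end Pool.Agent.H14.C0
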