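import Pool.Agent.H14.NP.Defs

/-!
# Bases from blocks
-/

open Filter Topology

namespace Pool.Agent.H14.C0

open Pool.Agent.H14.NP

variable {𝕜 : Type*} [RCLike 𝕜] {V : Type*} [NormedAddCommGroup V] [NormedSpace 𝕜 V]

/-- A finite dimensional decomposition whose blocks have uniformly basic bases gives a basis. -/
theorem isBasis_of_blocks (Q : ℕ → V →L[𝕜] V) (hQ0 : Q 0 = 0)
    (hQQ : ∀ n m v, Q n (Q m v) = Q (min n m) v)
    (hQt : ∀ v, Tendsto (fun n => Q n v) atTop (𝓝 v)) (d : ℕ → ℕ) (hd : ∀ m, 0 < d m)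
    (u : ℕ → ℕ → V) (hu1 : ∀ m t, t < d m → Q (m + 1) (u m t) = u m t)
    (hu2 : ∀ m t, t < d m → Q m (u m t) = 0) (hu3 : ∀ m t, t < d m → u m t ≠ 0) (C : ℝ)
    (hgr : ∀ m (a : ℕ → 𝕜) r, r ≤ d m →
      ‖∑ t ∈ Finset.range r, a t • u m t‖ ≤ C * ‖∑ t ∈ Finset.range (d m), a t • u m t‖)
    (hspan : ∀ m v, ∃ a : ℕ → 𝕜, Q (m + 1) v - Q m v = ∑ t ∈ Finset.range (d m), a t • u m t) :
    ∃ x : ℕ → V, IsBasis 𝕜 x ∧ ∃ κ : ℕ → ℕ, StrictMono κ ∧ ∀ m, x (κ m) = u m 0 := by
  classical
  let D : ℕ → ℕ := fun N => ∑ i ∈ Finset.range N, d i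
  have hD0 : D 0 = 0 := by simp [D]
  have hDs : ∀ N, D (N + 1) = D N + d N := fun N => by simp [D, Finset.sum_range_succ]
  have hDmono : StrictMono D := strictMono_nat_of_lt_succ fun N => by
    rw [hDs]; have := hd N; omega
  have hex : ∀ n, ∃ N, D N ≤ n ∧ n < D (N + 1) := by
    intro n
    have hlt : ∃ N, n < D (N + 1) := ⟨n, lt_of_lt_of_le (Nat.lt_succ_self n)
      (hDmono.le_apply (x := n + 1))⟩
    refine ⟨Nat.find hlt, ?_, Nat.find_spec hlt⟩
    rcases Nat.eq_zero_or_pos (Nat.find hlt) with h0 | h0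
    · rw [h0, hD0]; exact Nat.zero_le _
    · have h1 := Nat.find_min hlt (m := Nat.find hlt - 1) (by omega)
      have h2 : Nat.find hlt - 1 + 1 = Nat.find hlt := by omega
      rw [h2] at h1
      omega
  choose b hb1 hb2 using hex
  have hbu : ∀ n N, D N ≤ n → n < D (N + 1) → b n = N := by
    intro n N h1 h2
    have h3 : b n < N + 1 := hDmono.lt_iff_lt.1 ((hb1 n).trans_lt h2)
    have h4 : N < b n + 1 := hDmono.lt_iff_lt.1 (h1.trans_lt (hb2 n))
    omega
  have hbt : Tendsto b atTop atTop := by
    rw [tendsto_atTop]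
    intro N
    filter_upwards [eventually_ge_atTop (D N)] with n hn
    by_contra hlt
    push Not at hlt
    have := hb2 n
    have h2 : D (b n + 1) ≤ D N := hDmono.monotone hlt
    omega
  let x : ℕ → V := fun n => u (b n) (n - D (b n))
  have hx : ∀ N j, j < d N → x (D N + j) = u N j := by
    intro N j hj
    have : b (D N + j) = N := hbu _ _ (Nat.le_add_right _ _) (by rw [hDs]; omega)
    simp only [x, this, Nat.add_sub_cancel_left]
  have hxb : ∀ n, ∃ j, j < d (b n) ∧ x n = u (b n) j := fun n =>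
    ⟨n - D (b n), by have h1 := hb1 n; have h2 := hb2 n; rw [hDs] at h2; omega, rfl⟩
  have hQx1 : ∀ N i, i < D N → Q N (x i) = x i := by
    intro N i hi
    obtain ⟨j, hj, hjx⟩ := hxb i
    have hbN : b i + 1 ≤ N := by
      have := hDmono.lt_iff_lt.1 ((hb1 i).trans_lt hi)
      omega
    rw [hjx]
    have h1 := hu1 _ j hj
    rw [← h1, hQQ, min_eq_right hbN]
  have hQx2 : ∀ N i, D N ≤ i → Q N (x i) = 0 := by
    intro N i hi
    obtain ⟨j, hj, hjx⟩ := hxb i
    have hbN : N ≤ b i := by
      have := hDmono.lt_iff_lt.1 (hi.trans_lt (hb2 i))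
      omega
    rw [hjx]
    have h1 := hu2 _ j hj
    have h2 := hQQ N (b i) (u (b i) j)
    rw [h1, map_zero, min_eq_left hbN] at h2
    exact h2.symm
  have hQsum : ∀ N m (a : ℕ → 𝕜), Q N (∑ i ∈ Finset.range m, a i • x i)
      = ∑ i ∈ Finset.range (min m (D N)), a i • x i := by
    intro N m a
    rw [map_sum]
    have h1 : ∀ i ∈ Finset.range m, Q N (a i • x i) = if i < D N then a i • x i else 0 := by
      intro i _
      rw [map_smul]
      split_ifs with hi
      · rw [hQx1 N i hi]
      · rw [hQx2 N i (not_lt.1 hi), smul_zero]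
    rw [Finset.sum_congr rfl h1, ← Finset.sum_filter]
    congr 1
    ext i
    simp only [Finset.mem_filter, Finset.mem_range, lt_min_iff]
  -- linear independence inside the blocks
  have hli : ∀ m (c : ℕ → 𝕜), ∑ t ∈ Finset.range (d m), c t • u m t = 0 → ∀ t < d m, c t = 0 := by
    intro m c hc t ht
    have h1 := hgr m c t ht.le
    have h2 := hgr m c (t + 1) ht
    rw [hc, norm_zero, mul_zero] at h1 h2
    have h3 := norm_le_zero_iff.1 h1
    have h4 := norm_le_zero_iff.1 h2
    rw [Finset.sum_range_succ, h3, zero_add] at h4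
    exact (smul_eq_zero.1 h4).resolve_right (hu3 m t ht)
  refine ⟨x, ?_, D, hDmono, fun m => ?_⟩
  · intro v
    choose a ha using fun m => hspan m v
    let A : ℕ → 𝕜 := fun n => a (b n) (n - D (b n))
    have hA : ∀ N j, j < d N → A (D N + j) = a N j := by
      intro N j hj
      have : b (D N + j) = N := hbu _ _ (Nat.le_add_right _ _) (by rw [hDs]; omega)
      simp only [A, this, Nat.add_sub_cancel_left]
    have hAx : ∀ N r, r ≤ d N → ∑ j ∈ Finset.range r, A (D N + j) • x (D N + j) =
        ∑ j ∈ Finset.range r, a N j • u N j := by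
      intro N r hr
      refine Finset.sum_congr rfl fun j hj => ?_
      rw [Finset.mem_range] at hj
      rw [hA N j (hj.trans_le hr), hx N j (hj.trans_le hr)]
    have hfull : ∀ N, ∑ i ∈ Finset.range (D N), A i • x i = Q N v := by
      intro N
      induction N with
      | zero => rw [hD0, hQ0]; simp
      | succ N ih =>
        rw [hDs, Finset.sum_range_add, ih, hAx N _ le_rfl, ← ha]
        abel
    refine ⟨A, ?_, ?_⟩
    · -- convergence
      have hpart : ∀ n, ‖∑ i ∈ Finset.range n, A i • x i - Q (b n) v‖ ≤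
          C * ‖Q (b n + 1) v - Q (b n) v‖ := by
        intro n
        set N := b n with hN
        have hn1 : D N ≤ n := hb1 n
        have hn2 : n < D (N + 1) := hb2 n
        have hn3 : n < D N + d N := by rw [← hDs]; exact hn2
        obtain ⟨r, hr⟩ : ∃ r, n = D N + r := ⟨n - D N, by omega⟩
        have hrd : r ≤ d N := by omega
        have e1 : ∑ i ∈ Finset.range n, A i • x i = Q N v + ∑ j ∈ Finset.range r, a N j • u N j := by
          rw [hr, Finset.sum_range_add, hfull, hAx N r hrd]
        rw [e1, add_sub_cancel_left, ha]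
        exact hgr N (a N) r hrd
      have h1 : Tendsto (fun n => Q (b n) v) atTop (𝓝 v) := (hQt v).comp hbt
      have h2 : Tendsto (fun n => Q (b n + 1) v) atTop (𝓝 v) :=
        (hQt v).comp ((tendsto_add_atTop_nat 1).comp hbt)
      have h3 : Tendsto (fun n => C * ‖Q (b n + 1) v - Q (b n) v‖) atTop (𝓝 0) := by
        have h4 := (h2.sub h1).norm.const_mul C
        rw [sub_self, norm_zero, mul_zero] at h4
        exact h4
      have h5 : Tendsto (fun n => ∑ i ∈ Finset.range n, A i • x i - Q (b n) v) atTop (𝓝 0) :=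
        squeeze_zero_norm hpart h3
      have h6 := h5.add h1
      rw [zero_add] at h6
      refine h6.congr fun n => ?_
      abel
    · -- uniqueness
      intro A' hA'
      have h1 : ∀ N, Q N v = ∑ i ∈ Finset.range (D N), A' i • x i := by
        intro N
        have h2 := ((Q N).continuous.tendsto v).comp hA'
        have h3 : ∀ᶠ n in atTop, (∑ i ∈ Finset.range (D N), A' i • x i) =
            ((Q N) ∘ fun n => ∑ i ∈ Finset.range n, A' i • x i) n := by
          filter_upwards [eventually_ge_atTop (D N)] with n hn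
          rw [Function.comp_apply, hQsum, min_eq_right hn]
        exact tendsto_nhds_unique h2 (tendsto_const_nhds.congr' h3)
      funext n
      obtain ⟨j, hj⟩ : ∃ j, n = D (b n) + j := ⟨n - D (b n), by have := hb1 n; omega⟩
      set N := b n with hN
      have hjd : j < d N := by
        have := hb2 n
        rw [← hN, hDs] at this
        omega
      have h2 : ∑ t ∈ Finset.range (d N), (A' (D N + t) - a N t) • u N t = 0 := by
        have h3 := h1 (N + 1)
        rw [hDs, Finset.sum_range_add, ← h1 N] at h3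
        have h4 := ha N
        rw [h3, add_sub_cancel_left] at h4
        simp only [sub_smul]
        rw [Finset.sum_sub_distrib, ← h4, sub_eq_zero]
        refine Finset.sum_congr rfl fun t ht => ?_
        rw [Finset.mem_range] at ht
        rw [hx N t ht]
      have h5 := hli N (fun t => A' (D N + t) - a N t) h2 j hjd
      rw [hj, hA N j hjd]
      exact sub_eq_zero.1 h5
  · have := hx m 0 (hd m)
    rwa [add_zero] at this

/-- Bases are preserved by linear homeomorphisms. -/
theorem IsBasis.map {W : Type*} [NormedAddCommGroup W] [NormedSpace 𝕜 W] {x : ℕ → V}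
    (hx : IsBasis 𝕜 x) (L : V ≃L[𝕜] W) : IsBasis 𝕜 (fun n => L (x n)) := by
  intro w
  obtain ⟨a, ha, hu⟩ := hx (L.symm w)
  have hsum : ∀ (c : ℕ → 𝕜) n, ∑ i ∈ Finset.range n, c i • L (x i) =
      L (∑ i ∈ Finset.range n, c i • x i) := by
    intro c n
    rw [map_sum]
    exact Finset.sum_congr rfl fun i _ => (map_smul _ _ _).symm
  refine ⟨a, ?_, fun c hc => hu c ?_⟩
  · simp only [hsum]
    have := (L.continuous.tendsto _).comp ha
    rwa [L.apply_symm_apply] at this
  · simp only [hsum] at hc
    have := (L.symm.continuous.tendsto _).comp hc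
    refine this.congr fun n => ?_
    rw [Function.comp_apply, L.symm_apply_apply]

/-- Basic sequences are preserved by linear homeomorphisms. -/
theorem IsBasicSeq.map {W : Type*} [NormedAddCommGroup W] [NormedSpace 𝕜 W] {y : ℕ → V}
    (hy : IsBasicSeq 𝕜 y) (L : V ≃L[𝕜] W) : IsBasicSeq 𝕜 (fun n => L (y n)) := by
  intro w hw
  have hmem : L.symm w ∈ (Submodule.span 𝕜 (Set.range y)).topologicalClosure := by
    have h1 : (Submodule.span 𝕜 (Set.range fun n => L (y n))) =
        (Submodule.span 𝕜 (Set.range y)).map (L : V →ₗ[𝕜] W) := by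
      rw [Submodule.map_span, ← Set.range_comp]
      rfl
    rw [h1] at hw
    have h2 : w ∈ closure ((L : V → W) '' (Submodule.span 𝕜 (Set.range y) : Set V)) := hw
    have h3 : (L : V → W) '' closure (Submodule.span 𝕜 (Set.range y) : Set V) =
        closure ((L : V → W) '' (Submodule.span 𝕜 (Set.range y) : Set V)) :=
      L.toHomeomorph.image_closure _
    rw [← h3] at h2
    obtain ⟨v, hv, rfl⟩ := h2
    rw [L.symm_apply_apply]
    exact hv
  obtain ⟨a, ha, hu⟩ := hy _ hmem
  have hsum : ∀ (c : ℕ → 𝕜) n, ∑ i ∈ Finset.range n, c i • L (y i) =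
      L (∑ i ∈ Finset.range n, c i • y i) := by
    intro c n
    rw [map_sum]
    exact Finset.sum_congr rfl fun i _ => (map_smul _ _ _).symm
  refine ⟨a, ?_, fun c hc => hu c ?_⟩
  · simp only [hsum]
    have := (L.continuous.tendsto _).comp ha
    rwa [L.apply_symm_apply] at this
  · simp only [hsum] at hc
    have := (L.symm.continuous.tendsto _).comp hc
    refine this.congr fun n => ?_
    rw [Function.comp_apply, L.symm_apply_apply]

/-- Extendability is preserved by linear homeomorphisms. -/
theorem ExtendsToBasis.map {W : Type*} [NormedAddCommGroup W] [NormedSpace 𝕜 W] {y : ℕ → V}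
    (hy : ExtendsToBasis 𝕜 y) (L : V ≃L[𝕜] W) : ExtendsToBasis 𝕜 (fun n => L (y n)) := by
  obtain ⟨x, hx, k, hk, hkx⟩ := hy
  exact ⟨fun n => L (x n), IsBasis.map hx L, k, hk, fun n => congrArg L (hkx n)⟩

end Pool.Agent.H14.C0
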