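import Pool.Agent.H14.C0.Basic

/-!
# A form of Sobczyk's theorem
-/

open Filter Topology

namespace Pool.Agent.H14.C0

variable {𝕜 : Type*} [RCLike 𝕜]

/-- A weak* distance. -/
noncomputable def dd (F K : WeakDual 𝕜 (c0 𝕜)) : ℝ :=
  ∑' j : ℕ, (1 / 2 : ℝ) ^ j * min 1 ‖F (e 𝕜 j) - K (e 𝕜 j)‖

theorem dd_term_le (F K : WeakDual 𝕜 (c0 𝕜)) (j : ℕ) :
    ‖(1 / 2 : ℝ) ^ j * min 1 ‖F (e 𝕜 j) - K (e 𝕜 j)‖‖ ≤ (1 / 2 : ℝ) ^ j := by
  rw [norm_mul, Real.norm_of_nonneg (by positivity), Real.norm_of_nonneg (by positivity)]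
  calc (1 / 2 : ℝ) ^ j * min 1 ‖F (e 𝕜 j) - K (e 𝕜 j)‖ ≤ (1 / 2 : ℝ) ^ j * 1 := by
        gcongr
        exact min_le_left _ _
    _ = _ := mul_one _

theorem dd_summable (F K : WeakDual 𝕜 (c0 𝕜)) :
    Summable fun j : ℕ => (1 / 2 : ℝ) ^ j * min 1 ‖F (e 𝕜 j) - K (e 𝕜 j)‖ :=
  Summable.of_norm_bounded summable_geometric_two (dd_term_le F K)

theorem le_dd (F K : WeakDual 𝕜 (c0 𝕜)) (j : ℕ) :
    (1 / 2 : ℝ) ^ j * min 1 ‖F (e 𝕜 j) - K (e 𝕜 j)‖ ≤ dd F K :=
  (dd_summable F K).le_tsum j fun i _ => by positivity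

theorem dd_nonneg (F K : WeakDual 𝕜 (c0 𝕜)) : 0 ≤ dd F K := tsum_nonneg fun j => by positivity

theorem dd_self (F : WeakDual 𝕜 (c0 𝕜)) : dd F F = 0 := by
  unfold dd
  simp

theorem dd_continuous_right (F : WeakDual 𝕜 (c0 𝕜)) : Continuous fun K => dd F K := by
  refine continuous_tsum (fun j => ?_) summable_geometric_two fun j K => dd_term_le F K j
  exact continuous_const.mul (continuous_const.min
    ((continuous_const.sub (WeakDual.eval_continuous (e 𝕜 j))).norm))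

theorem dd_continuous_left (K : WeakDual 𝕜 (c0 𝕜)) : Continuous fun F => dd F K := by
  refine continuous_tsum (fun j => ?_) summable_geometric_two fun j F => dd_term_le F K j
  exact continuous_const.mul (continuous_const.min
    (((WeakDual.eval_continuous (e 𝕜 j)).sub continuous_const).norm))

/-- Sobczyk's theorem: a bounded pointwise null family of functionals on a subspace of `c_0`
extends to a bounded pointwise null family of functionals on `c_0`. -/
theorem sobczyk (G : Submodule 𝕜 (c0 𝕜)) {I : Type*} (l : Filter I) (f : I → G →L[𝕜] 𝕜) (C : ℝ)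
    (hC0 : 0 ≤ C) (hC : ∀ i, ‖f i‖ ≤ C) (h0 : ∀ g, Tendsto (fun i => f i g) l (𝓝 0)) :
    ∃ F : I → (c0 𝕜 →L[𝕜] 𝕜), (∀ i (g : G), F i g = f i g) ∧ (∀ i, ‖F i‖ ≤ 2 * C) ∧
      ∀ x, Tendsto (fun i => F i x) l (𝓝 0) := by
  classical
  choose F1 hF1 hF1n using fun i => exists_extension_norm_eq G (f i)
  let F : I → WeakDual 𝕜 (c0 𝕜) := fun i => StrongDual.toWeakDual (F1 i)
  have hF : ∀ i x, F i x = F1 i x := fun i x => rfl
  let Ball : Set (WeakDual 𝕜 (c0 𝕜)) := WeakDual.toStrongDual ⁻¹' Metric.closedBall 0 C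
  have hBall : IsCompact Ball := WeakDual.isCompact_closedBall 0 C
  let K : Set (WeakDual 𝕜 (c0 𝕜)) := Ball ∩ {k | ∀ g : G, k (g : c0 𝕜) = 0}
  have hclosed : IsClosed {k : WeakDual 𝕜 (c0 𝕜) | ∀ g : G, k (g : c0 𝕜) = 0} := by
    have : {k : WeakDual 𝕜 (c0 𝕜) | ∀ g : G, k (g : c0 𝕜) = 0} =
        ⋂ g : G, {k : WeakDual 𝕜 (c0 𝕜) | k (g : c0 𝕜) = 0} := by
      ext k; simp
    rw [this]
    exact isClosed_iInter fun g => isClosed_eq (WeakDual.eval_continuous (g : c0 𝕜)) continuous_const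
  have hK : IsCompact K := hBall.inter_right hclosed
  have hKne : K.Nonempty := ⟨0, by
    refine ⟨?_, fun g => rfl⟩
    change WeakDual.toStrongDual (0 : WeakDual 𝕜 (c0 𝕜)) ∈ Metric.closedBall 0 C
    rw [map_zero]
    exact Metric.mem_closedBall_self hC0⟩
  have hmin : ∀ i, ∃ k ∈ K, ∀ k' ∈ K, dd (F i) k ≤ dd (F i) k' := by
    intro i
    obtain ⟨k, hk, hk2⟩ := hK.exists_isMinOn hKne (dd_continuous_right (F i)).continuousOn
    exact ⟨k, hk, fun k' hk' => hk2 hk'⟩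
  choose k hkK hkmin using hmin
  have hFball : ∀ i, F i ∈ Ball := by
    intro i
    change WeakDual.toStrongDual (F i) ∈ Metric.closedBall 0 C
    rw [mem_closedBall_zero_iff]
    change ‖F1 i‖ ≤ C
    rw [hF1n]
    exact hC i
  have htend : Tendsto (fun i => dd (F i) (k i)) l (𝓝 0) := by
    by_contra hcon
    rw [Metric.tendsto_nhds] at hcon
    push Not at hcon
    obtain ⟨ε, hε, hfreq⟩ := hcon
    have hfreq' : ∃ᶠ i in l, ε ≤ dd (F i) (k i) := by
      refine Frequently.mono hfreq fun i hi => ?_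
      rw [dist_zero_right, Real.norm_of_nonneg (dd_nonneg _ _)] at hi
      exact hi
    have hne : (l ⊓ 𝓟 {i | ε ≤ dd (F i) (k i)}).NeBot := frequently_mem_iff_neBot.1 hfreq'
    let U : Ultrafilter I := Ultrafilter.of (l ⊓ 𝓟 {i | ε ≤ dd (F i) (k i)})
    have hU : (U : Filter I) ≤ l ⊓ 𝓟 {i | ε ≤ dd (F i) (k i)} := Ultrafilter.of_le _
    have hUl : (U : Filter I) ≤ l := hU.trans inf_le_left
    have hUS : ∀ᶠ i in (U : Filter I), ε ≤ dd (F i) (k i) := by
      have : {i | ε ≤ dd (F i) (k i)} ∈ (U : Filter I) := (hU.trans inf_le_right) (mem_principal_self _)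
      exact this
    obtain ⟨Φ, hΦB, hΦ⟩ := hBall.ultrafilter_le_nhds (U.map F) (by
      rw [le_principal_iff]
      change F ⁻¹' Ball ∈ (U : Filter I)
      exact Filter.univ_mem' hFball)
    have hΦt : Tendsto F (U : Filter I) (𝓝 Φ) := hΦ
    have hΦK : Φ ∈ K := by
      refine ⟨hΦB, fun g => ?_⟩
      have h1 : Tendsto (fun i => F i (g : c0 𝕜)) (U : Filter I) (𝓝 (Φ (g : c0 𝕜))) :=
        ((WeakDual.eval_continuous (g : c0 𝕜)).tendsto Φ).comp hΦt
      have h2 : Tendsto (fun i => F i (g : c0 𝕜)) (U : Filter I) (𝓝 0) := by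
        refine ((h0 g).mono_left hUl).congr fun i => ?_
        rw [hF, hF1]
      exact tendsto_nhds_unique h1 h2
    have h3 : Tendsto (fun i => dd (F i) Φ) (U : Filter I) (𝓝 0) := by
      have := ((dd_continuous_left Φ).tendsto Φ).comp hΦt
      rw [dd_self] at this
      exact this
    have h4 : ∀ᶠ i in (U : Filter I), dd (F i) Φ < ε := h3.eventually (gt_mem_nhds hε)
    obtain ⟨i, hi1, hi2⟩ := (h4.and hUS).exists
    have h5 := hkmin i Φ hΦK
    linarith
  let H : I → (c0 𝕜 →L[𝕜] 𝕜) := fun i => F1 i - WeakDual.toStrongDual (k i)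
  have hH : ∀ i x, H i x = F i x - k i x := fun i x => rfl
  have hHn : ∀ i, ‖H i‖ ≤ 2 * C := by
    intro i
    have h1 : ‖WeakDual.toStrongDual (k i)‖ ≤ C := by
      have := (hkK i).1
      change WeakDual.toStrongDual (k i) ∈ Metric.closedBall 0 C at this
      rwa [mem_closedBall_zero_iff] at this
    calc ‖H i‖ ≤ ‖F1 i‖ + ‖WeakDual.toStrongDual (k i)‖ := norm_sub_le _ _
      _ ≤ C + C := add_le_add (by rw [hF1n]; exact hC i) h1
      _ = 2 * C := by ring
  have hHe : ∀ j, Tendsto (fun i => H i (e 𝕜 j)) l (𝓝 0) := by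
    intro j
    rw [tendsto_zero_iff_norm_tendsto_zero]
    have h1 : Tendsto (fun i => min 1 ‖H i (e 𝕜 j)‖) l (𝓝 0) := by
      have h2 : Tendsto (fun i => 2 ^ j * dd (F i) (k i)) l (𝓝 0) := by
        have := htend.const_mul ((2 : ℝ) ^ j)
        rwa [mul_zero] at this
      refine squeeze_zero (fun i => by positivity) (fun i => ?_) h2
      have h3 := le_dd (F i) (k i) j
      rw [hH]
      calc min 1 ‖F i (e 𝕜 j) - k i (e 𝕜 j)‖ =
          2 ^ j * ((1 / 2 : ℝ) ^ j * min 1 ‖F i (e 𝕜 j) - k i (e 𝕜 j)‖) := by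
            rw [← mul_assoc, ← mul_pow]
            norm_num
        _ ≤ _ := by gcongr
    rw [Metric.tendsto_nhds] at h1 ⊢
    intro ε hε
    filter_upwards [h1 (min ε 1) (by positivity)] with i hi
    rw [dist_zero_right, Real.norm_of_nonneg (by positivity)] at hi ⊢
    rcases le_total 1 ‖H i (e 𝕜 j)‖ with h | h
    · rw [min_eq_left h] at hi
      exact absurd hi (not_lt.2 (min_le_right _ _))
    · rw [min_eq_right h] at hi
      exact hi.trans_le (min_le_left _ _)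
  refine ⟨H, fun i g => ?_, hHn, fun x => ?_⟩
  · rw [hH, (hkK i).2 g, sub_zero, hF, hF1]
  · rw [Metric.tendsto_nhds]
    intro ε hε
    -- approximate `x`
    obtain ⟨N, hN⟩ : ∃ N, 2 * C * ‖x - proj 𝕜 N x‖ < ε / 2 := by
      have h1 : Tendsto (fun N => 2 * C * ‖x - proj 𝕜 N x‖) atTop (𝓝 0) := by
        have h2 := (((tendsto_const_nhds (x := x)).sub (proj_tendsto x)).norm).const_mul (2 * C)
        rw [sub_self, norm_zero, mul_zero] at h2
        exact h2
      exact (h1.eventually (gt_mem_nhds (half_pos hε))).exists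
    have h2 : Tendsto (fun i => H i (proj 𝕜 N x)) l (𝓝 0) := by
      simp only [proj_eq_sum, map_sum, map_smul]
      have h3 : Tendsto (fun i => ∑ j ∈ Finset.range N, x j • H i (e 𝕜 j)) l
          (𝓝 (∑ j ∈ Finset.range N, x j • (0 : 𝕜))) :=
        tendsto_finsetSum _ fun j _ => (hHe j).const_smul (x j)
      simpa using h3
    filter_upwards [(Metric.tendsto_nhds.1 h2) (ε / 2) (half_pos hε)] with i hi
    rw [dist_zero_right] at hi ⊢
    calc ‖H i x‖ = ‖H i (proj 𝕜 N x) + H i (x - proj 𝕜 N x)‖ := by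
          rw [← map_add]; congr 2; abel
      _ ≤ ‖H i (proj 𝕜 N x)‖ + ‖H i (x - proj 𝕜 N x)‖ := norm_add_le _ _
      _ ≤ ‖H i (proj 𝕜 N x)‖ + 2 * C * ‖x - proj 𝕜 N x‖ := by
          gcongr
          exact ((H i).le_opNorm _).trans (by gcongr; exact hHn i)
      _ < ε / 2 + ε / 2 := by linarith
      _ = ε := by ring

end Pool.Agent.H14.C0
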