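import Pool.Agent.H14.C0.Perturb
import Pool.Agent.H14.C0.Sobczyk
import Pool.Agent.H14.C0.Absorb

/-!
# Extension of the partial sum operators, and the coordinate system
-/

open Filter Topology

namespace Pool.Agent.H14.C0

open Pool.Agent.H14.NP

variable {𝕜 : Type*} [RCLike 𝕜]

theorem proj_proj (n m : ℕ) (x : c0 𝕜) : proj 𝕜 n (proj 𝕜 m x) = proj 𝕜 (min n m) x := by
  ext i
  rw [proj_apply, proj_apply, proj_apply]
  by_cases h1 : i < n <;> by_cases h2 : i < m <;> simp [h1, h2]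

theorem proj_of_le {n m : ℕ} (h : n ≤ m) {x : c0 𝕜} (hx : proj 𝕜 n x = x) : proj 𝕜 m x = x := by
  rw [← hx, proj_proj, min_eq_right h]

theorem proj_zero (x : c0 𝕜) : proj 𝕜 0 x = 0 := by
  ext i
  rw [proj_apply, if_neg (Nat.not_lt_zero i), c0_zero_apply]

/-- The partial sum operators extend to operators on `c_0` converging strongly to the identity. -/
theorem exists_ext (y : ℕ → c0 𝕜) (hy : IsBasicSeq 𝕜 y)
    (hfin : ∀ n, ∃ N, proj 𝕜 N (y n) = y n) :
    ∃ (N : ℕ → ℕ) (S : ℕ → c0 𝕜 →L[𝕜] c0 𝕜) (C : ℝ), Monotone N ∧ N 0 = 0 ∧ 0 ≤ C ∧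
      (∀ n, ‖S n‖ ≤ C) ∧ (∀ n x, proj 𝕜 (N n) (S n x) = S n x) ∧
      (∀ x, Tendsto (fun n => S n x) atTop (𝓝 x)) ∧
      (∀ n i, S n (y i) = if i < n then y i else 0) ∧ (∀ n, y n ≠ 0) := by
  classical
  have hG := isBasis_cspan hy
  have hcomp : CompleteSpace (cspan 𝕜 y) := (cspan_isClosed y).completeSpace_coe
  obtain ⟨P, CP, hCP0, hPC, hPy, hPt, hPf, hPP⟩ := hG.exists_proj
  choose M hM using hfin
  let N : ℕ → ℕ := fun n => ∑ i ∈ Finset.range n, M i
  have hN0 : N 0 = 0 := by simp [N]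
  have hNs : ∀ n, N (n + 1) = N n + M n := fun n => by simp [N, Finset.sum_range_succ]
  have hNm : Monotone N := monotone_nat_of_le_succ fun n => by rw [hNs]; omega
  have hNy : ∀ n i, i < n → proj 𝕜 (N n) (y i) = y i := by
    intro n i hi
    refine proj_of_le ?_ (hM i)
    exact Finset.single_le_sum (f := M) (fun _ _ => Nat.zero_le _) (Finset.mem_range.2 hi)
  have hT : ∀ n (g : cspan 𝕜 y), proj 𝕜 (N n) (P n g : c0 𝕜) = (P n g : c0 𝕜) := by
    intro n g
    obtain ⟨a, ha⟩ := hPf n g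
    rw [ha, Submodule.coe_sum, map_sum]
    refine Finset.sum_congr rfl fun i hi => ?_
    change proj 𝕜 (N n) (a i • y i) = a i • y i
    rw [map_smul, hNy n i (Finset.mem_range.1 hi)]
  -- the differences
  let D : ℕ → (cspan 𝕜 y →L[𝕜] c0 𝕜) := fun n =>
    (proj 𝕜 (N n)).comp (cspan 𝕜 y).subtypeL - (cspan 𝕜 y).subtypeL.comp (P n)
  have hD : ∀ n g, D n g = proj 𝕜 (N n) (g : c0 𝕜) - (P n g : c0 𝕜) := fun n g => rfl
  have hDn : ∀ n, ‖D n‖ ≤ 1 + CP := by
    intro n
    refine ContinuousLinearMap.opNorm_le_bound _ (by positivity) fun g => ?_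
    rw [hD]
    calc ‖proj 𝕜 (N n) (g : c0 𝕜) - (P n g : c0 𝕜)‖ ≤ ‖proj 𝕜 (N n) (g : c0 𝕜)‖ + ‖(P n g : c0 𝕜)‖ :=
          norm_sub_le _ _
      _ ≤ 1 * ‖g‖ + CP * ‖g‖ := by
          refine add_le_add (((proj 𝕜 (N n)).le_opNorm _).trans ?_) (((P n).le_opNorm _).trans ?_)
          · exact mul_le_mul_of_nonneg_right (norm_proj_le _) (norm_nonneg _)
          · exact mul_le_mul_of_nonneg_right (hPC n) (norm_nonneg _)
      _ = (1 + CP) * ‖g‖ := by ring
  have hDt : ∀ g, Tendsto (fun n => ‖D n g‖) atTop (𝓝 0) := by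
    intro g
    have hNt : Tendsto (fun n => proj 𝕜 (N n) (g : c0 𝕜)) atTop (𝓝 (g : c0 𝕜)) := by
      -- `N n → ∞`
      have hNtop : Tendsto N atTop atTop := by
        have hMpos : ∀ n, 0 < M n := by
          intro n
          by_contra h0
          push Not at h0
          have h1 : M n = 0 := by omega
          have h2 := hM n
          rw [h1, proj_zero] at h2
          exact IsBasis.ne_zero hG n (Subtype.ext h2.symm)
        have hNst : StrictMono N := strictMono_nat_of_lt_succ fun n => by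
          rw [hNs]; have := hMpos n; omega
        exact hNst.tendsto_atTop
      exact (proj_tendsto _).comp hNtop
    have h1 : Tendsto (fun n => (P n g : c0 𝕜)) atTop (𝓝 (g : c0 𝕜)) :=
      tendsto_subtype_rng.1 (hPt g)
    have h2 := (hNt.sub h1).norm
    rw [sub_self, norm_zero] at h2
    exact h2
  -- Sobczyk
  let l : Filter (ℕ × ℕ) := comap Prod.fst atTop
  let f : ℕ × ℕ → (cspan 𝕜 y →L[𝕜] 𝕜) := fun z => (coord 𝕜 z.2).comp (D z.1)
  have hf : ∀ z g, f z g = D z.1 g z.2 := fun z g => rfl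
  obtain ⟨F, hFG, hFn, hFt⟩ := sobczyk (cspan 𝕜 y) l f (1 + CP) (by positivity) (fun z => by
      refine ContinuousLinearMap.opNorm_le_bound _ (by positivity) fun g => ?_
      rw [hf]
      exact (norm_coe_le _ _).trans (((D z.1).le_opNorm _).trans
        (mul_le_mul_of_nonneg_right (hDn _) (norm_nonneg _))))
    (fun g => by
      have h1 : Tendsto (fun z : ℕ × ℕ => ‖D z.1 g‖) l (𝓝 0) := (hDt g).comp tendsto_comap
      exact squeeze_zero_norm (fun z => by rw [hf]; exact norm_coe_le _ _) h1)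
  have hFunif : ∀ x (ε : ℝ), 0 < ε → ∃ n0, ∀ n ≥ n0, ∀ j, ‖F (n, j) x‖ ≤ ε := by
    intro x ε hε
    have h1 := (hFt x).norm
    rw [norm_zero] at h1
    have h2 := h1.eventually (ge_mem_nhds hε)
    rw [eventually_comap] at h2
    obtain ⟨n0, hn0⟩ := eventually_atTop.1 h2
    exact ⟨n0, fun n hn j => hn0 n hn (n, j) rfl⟩
  have hFb : ∀ z x, ‖F z x‖ ≤ 2 * (1 + CP) * ‖x‖ := fun z x =>
    ((F z).le_opNorm x).trans (mul_le_mul_of_nonneg_right (hFn z) (norm_nonneg _))
  let Dt : ℕ → (c0 𝕜 →L[𝕜] c0 𝕜) := fun n =>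
    mkOp (fun j => if j < N n then (F (n, j) : c0 𝕜 →ₗ[𝕜] 𝕜) else 0) (2 * (1 + CP)) (by positivity)
      (fun j x => by
        split_ifs
        · exact hFb _ x
        · change ‖(0 : 𝕜)‖ ≤ _
          rw [norm_zero]; positivity)
      (fun x => by
        refine tendsto_const_nhds.congr' ?_
        filter_upwards [eventually_ge_atTop (N n)] with j hj
        rw [if_neg (not_lt.2 hj)]
        rfl)
  have hDt2 : ∀ n x j, Dt n x j = if j < N n then F (n, j) x else 0 := by
    intro n x j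
    change (if j < N n then (F (n, j) : c0 𝕜 →ₗ[𝕜] 𝕜) else 0) x = _
    split_ifs <;> rfl
  have hDtn : ∀ n, ‖Dt n‖ ≤ 2 * (1 + CP) := fun n => norm_mkOp_le _ _ _ _ _
  let S : ℕ → (c0 𝕜 →L[𝕜] c0 𝕜) := fun n => proj 𝕜 (N n) - Dt n
  have hS : ∀ n x, S n x = proj 𝕜 (N n) x - Dt n x := fun n x => rfl
  have hNtop : Tendsto N atTop atTop := by
    have hMpos : ∀ n, 0 < M n := by
      intro n
      by_contra h0
      push Not at h0
      have h1 : M n = 0 := by omega
      have h2 := hM n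
      rw [h1, proj_zero] at h2
      exact IsBasis.ne_zero hG n (Subtype.ext h2.symm)
    have hNst : StrictMono N := strictMono_nat_of_lt_succ fun n => by
      rw [hNs]; have := hMpos n; omega
    exact hNst.tendsto_atTop
  refine ⟨N, S, 1 + 2 * (1 + CP), hNm, hN0, by positivity, ?_, ?_, ?_, ?_, ?_⟩
  · intro n
    exact (norm_sub_le _ _).trans (add_le_add (norm_proj_le _) (hDtn n))
  · intro n x
    rw [hS, map_sub, proj_proj, min_self]
    congr 1
    ext j
    rw [proj_apply, hDt2]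
    split_ifs <;> rfl
  · intro x
    have h1 : Tendsto (fun n => proj 𝕜 (N n) x) atTop (𝓝 x) := (proj_tendsto x).comp hNtop
    have h2 : Tendsto (fun n => Dt n x) atTop (𝓝 0) := by
      rw [Metric.tendsto_atTop]
      intro ε hε
      obtain ⟨n0, hn0⟩ := hFunif x (ε / 2) (half_pos hε)
      refine ⟨n0, fun n hn => ?_⟩
      rw [dist_zero_right]
      refine lt_of_le_of_lt (c0_norm_le (C := ε / 2) (by positivity) fun j => ?_) (by linarith)
      rw [hDt2]
      split_ifs
      · exact hn0 n hn j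
      · rw [norm_zero]; positivity
    have h3 := h1.sub h2
    rw [sub_zero] at h3
    exact h3
  · intro n i
    have h1 : Dt n (y i) = D n ⟨y i, mem_cspan y i⟩ := by
      ext j
      rw [hDt2]
      split_ifs with hj
      · rw [hFG (n, j) ⟨y i, mem_cspan y i⟩, hf]
      · -- the coordinate vanishes
        rw [hD, c0_sub_apply, proj_apply, if_neg hj, ← hT n, proj_apply, if_neg hj, sub_zero]
    rw [hS, h1, hD, sub_sub_cancel, hPy]
    split_ifs <;> rfl
  · intro n h0
    exact IsBasis.ne_zero hG n (Subtype.ext h0)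

end Pool.Agent.H14.C0
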