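import Pool.Agent.H14.C0.Main

/-!
# Every basic sequence of `c_0` extends to a basis of `c_0`: conclusion
-/

open Filter Topology
open scoped ZeroAtInfty

namespace Pool.Agent.H14.C0

open Pool.Agent.H14.NP

variable {𝕜 : Type*} [RCLike 𝕜]

/-- The case of finite codimension (in any normed space). -/
theorem extends_of_finite {E : Type*} [NormedAddCommGroup E] [NormedSpace 𝕜 E] (y : ℕ → E)
    (hy : IsBasicSeq 𝕜 y) (hfin : FiniteDimensional 𝕜 (E ⧸ cspan 𝕜 y)) : ExtendsToBasis 𝕜 y := by
  classical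
  set G := cspan 𝕜 y with hG
  set d := Module.finrank 𝕜 (E ⧸ G) with hd
  let b : Module.Basis (Fin d) 𝕜 (E ⧸ G) := Module.finBasis 𝕜 (E ⧸ G)
  choose f hf using fun i : Fin d => Submodule.Quotient.mk_surjective G (b i)
  let F : ℕ → E := fun n => if h : n < d then f ⟨n, h⟩ else 0
  let x : ℕ → E := fun n => if n < d then F n else y (n - d)
  have hx1 : ∀ n, n < d → x n = F n := fun n hn => if_pos hn
  have hx2 : ∀ n, x (d + n) = y n := fun n => by
    simp only [x]
    rw [if_neg (by omega), Nat.add_sub_cancel_left]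
  have hsum : ∀ (A : ℕ → 𝕜) m, ∑ i ∈ Finset.range (d + m), A i • x i =
      ∑ i ∈ Finset.range d, A i • F i + ∑ j ∈ Finset.range m, A (d + j) • y j := by
    intro A m
    rw [Finset.sum_range_add]
    congr 1
    · exact Finset.sum_congr rfl fun i hi => by rw [hx1 i (Finset.mem_range.1 hi)]
    · exact Finset.sum_congr rfl fun j _ => by rw [hx2]
  have hmkF : ∀ A : ℕ → 𝕜, (Submodule.Quotient.mk (∑ i ∈ Finset.range d, A i • F i) : E ⧸ G) =
      ∑ i : Fin d, A i • b i := by
    intro A
    have h1 : (Submodule.Quotient.mk (∑ i ∈ Finset.range d, A i • F i) : E ⧸ G) =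
        G.mkQ (∑ i ∈ Finset.range d, A i • F i) := rfl
    rw [h1, map_sum, Finset.sum_range]
    refine Finset.sum_congr rfl fun i _ => ?_
    rw [map_smul]
    congr 1
    change Submodule.Quotient.mk (F i) = b i
    simp only [F, i.2, dif_pos, Fin.eta]
    exact hf i
  refine ⟨x, ?_, fun n => d + n, fun a b h => by simpa using h, fun n => (hx2 n).symm⟩
  intro v
  let c : ℕ → 𝕜 := fun n => if h : n < d then b.repr (Submodule.Quotient.mk v) ⟨n, h⟩ else 0
  have hc : ∑ i : Fin d, c i • b i = Submodule.Quotient.mk v := by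
    rw [← b.sum_repr (Submodule.Quotient.mk v)]
    refine Finset.sum_congr rfl fun i _ => ?_
    simp only [c, i.2, dif_pos, Fin.eta]
  set g := v - ∑ i ∈ Finset.range d, c i • F i with hg
  have hgG : g ∈ G := by
    rw [← Submodule.Quotient.mk_eq_zero, hg, Submodule.Quotient.mk_sub, hmkF, hc, sub_self]
  obtain ⟨a, ha, hau⟩ := hy g hgG
  let A : ℕ → 𝕜 := fun n => if n < d then c n else a (n - d)
  have hA1 : ∀ n, n < d → A n = c n := fun n hn => if_pos hn
  have hA2 : ∀ n, A (d + n) = a n := fun n => by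
    simp only [A]
    rw [if_neg (by omega), Nat.add_sub_cancel_left]
  have hshift : ∀ (u : ℕ → E) (w : E), Tendsto (fun m => u (d + m)) atTop (𝓝 w) ↔
      Tendsto u atTop (𝓝 w) := by
    intro u w
    have := tendsto_add_atTop_iff_nat (f := u) (l := 𝓝 w) d
    rw [← this]
    refine tendsto_congr fun m => ?_
    rw [add_comm]
  refine ⟨A, ?_, ?_⟩
  · change Tendsto (fun n => ∑ i ∈ Finset.range n, A i • x i) atTop (𝓝 v)
    rw [← hshift]
    have h1 : ∀ m, ∑ i ∈ Finset.range (d + m), A i • x i =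
        ∑ i ∈ Finset.range d, c i • F i + ∑ j ∈ Finset.range m, a j • y j := by
      intro m
      rw [hsum]
      congr 1
      · exact Finset.sum_congr rfl fun i hi => by rw [hA1 i (Finset.mem_range.1 hi)]
      · exact Finset.sum_congr rfl fun j _ => by rw [hA2]
    simp only [h1]
    have h2 := (tendsto_const_nhds (x := ∑ i ∈ Finset.range d, c i • F i)).add ha
    rw [hg, add_sub_cancel] at h2
    exact h2
  · intro A' hA'
    have hA'' : Tendsto (fun n => ∑ i ∈ Finset.range n, A' i • x i) atTop (𝓝 v) := hA'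
    rw [← hshift] at hA''
    simp only [hsum] at hA''
    have h1 : Tendsto (fun m => ∑ j ∈ Finset.range m, A' (d + j) • y j) atTop
        (𝓝 (v - ∑ i ∈ Finset.range d, A' i • F i)) := by
      have h2 := hA''.sub (tendsto_const_nhds (x := ∑ i ∈ Finset.range d, A' i • F i))
      refine h2.congr fun m => ?_
      abel
    have h3 : v - ∑ i ∈ Finset.range d, A' i • F i ∈ G := by
      have hcl : IsClosed (G : Set E) := cspan_isClosed y
      refine hcl.mem_of_tendsto h1 (Eventually.of_forall fun m => ?_)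
      exact Submodule.sum_mem _ fun j _ => Submodule.smul_mem _ _ (mem_cspan y j)
    have h4 : ∑ i : Fin d, A' i • b i = Submodule.Quotient.mk v := by
      rw [← hmkF]
      rw [← Submodule.Quotient.mk_eq_zero, Submodule.Quotient.mk_sub, sub_eq_zero] at h3
      exact h3.symm
    have h5 : ∀ n, n < d → A' n = c n := by
      intro n hn
      have h6 : ∑ i : Fin d, (A' i - c i) • b i = 0 := by
        simp only [sub_smul]
        rw [Finset.sum_sub_distrib, h4, hc, sub_self]
      have h7 := Fintype.linearIndependent_iff.1 b.linearIndependent (fun i : Fin d => A' i - c i) h6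
        ⟨n, hn⟩
      exact sub_eq_zero.1 h7
    have h8 : v - ∑ i ∈ Finset.range d, A' i • F i = g := by
      rw [hg]
      congr 1
      exact Finset.sum_congr rfl fun i hi => by rw [h5 i (Finset.mem_range.1 hi)]
    rw [h8] at h1
    have h9 := hau (fun j => A' (d + j)) h1
    funext n
    rcases lt_or_ge n d with hn | hn
    · rw [h5 n hn, hA1 n hn]
    · obtain ⟨j, rfl⟩ := Nat.exists_eq_add_of_le hn
      rw [hA2]
      exact congrFun h9 j

/-- Every basic sequence of `c_0` extends to a basis of `c_0`. -/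
theorem extends_c0 (y : ℕ → c0 𝕜) (hy : IsBasicSeq 𝕜 y) : ExtendsToBasis 𝕜 y := by
  obtain ⟨L, hL⟩ := perturb y hy
  have hy' : IsBasicSeq 𝕜 (fun n => L (y n)) := IsBasicSeq.map hy L
  have h1 : ExtendsToBasis 𝕜 (fun n => L (y n)) := by
    by_cases hfin : FiniteDimensional 𝕜 (c0 𝕜 ⧸ cspan 𝕜 fun n => L (y n))
    · exact extends_of_finite _ hy' hfin
    · exact extends_of_infinite _ hy' hL hfin
  have h2 := ExtendsToBasis.map h1 L.symm
  simpa using h2

/-- The same for every space isomorphic to `c_0`. -/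
theorem extends_of_equiv {E : Type*} [NormedAddCommGroup E] [NormedSpace 𝕜 E]
    (L : E ≃L[𝕜] C₀(ℕ, 𝕜)) (y : ℕ → E) (hy : IsBasicSeq 𝕜 y) : ExtendsToBasis 𝕜 y := by
  let L' : E ≃L[𝕜] c0 𝕜 := L.trans (c0Equiv 𝕜).symm
  have h1 := extends_c0 _ (IsBasicSeq.map hy L')
  have h2 := ExtendsToBasis.map h1 L'.symm
  simpa using h2

theorem not_propNP_of_equiv {E : Type*} [NormedAddCommGroup E] [NormedSpace 𝕜 E]
    (L : E ≃L[𝕜] C₀(ℕ, 𝕜)) : ¬ PropNP 𝕜 E := by
  rintro ⟨y, hy, h⟩
  exact h 1 (extends_of_equiv L _ hy)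

end Pool.Agent.H14.C0
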