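import Pool.Agent.H14.C0.System

/-!
# Every basic sequence of `c_0` extends to a basis of `c_0`
-/

open Filter Topology

namespace Pool.Agent.H14.C0

open Pool.Agent.H14.NP

variable {𝕜 : Type*} [RCLike 𝕜]

/-- A nonzero vector of `ℓ_∞^N` extends to a monotone basis. -/
theorem exists_block (N : ℕ) (y : c0 𝕜) (hy : proj 𝕜 N y = y) (hy0 : y ≠ 0) :
    ∃ U : ℕ → c0 𝕜, 0 < N ∧ U 0 = y ∧ (∀ t < N, proj 𝕜 N (U t) = U t) ∧ (∀ t < N, U t ≠ 0) ∧
      (∀ (a : ℕ → 𝕜) r, r ≤ N → ‖∑ t ∈ Finset.range r, a t • U t‖ ≤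
        ‖∑ t ∈ Finset.range N, a t • U t‖) ∧
      (∀ δ : c0 𝕜, proj 𝕜 N δ = δ → ∃ a : ℕ → 𝕜, δ = ∑ t ∈ Finset.range N, a t • U t) := by
  classical
  obtain ⟨j0, hj0⟩ := exists_norm_eq y hy0
  have hyj0 : y j0 ≠ 0 := by
    rw [← norm_pos_iff, hj0]; exact norm_pos_iff.2 hy0
  have hj0N : j0 < N := by
    by_contra h
    rw [← hy, proj_apply, if_neg h] at hyj0
    exact hyj0 rfl
  have hN : 0 < N := lt_of_le_of_lt (Nat.zero_le _) hj0N
  let τ : Equiv.Perm ℕ := Equiv.swap 0 j0
  have hτj0 : τ j0 = 0 := Equiv.swap_apply_right 0 j0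
  have hτ0 : τ 0 = j0 := Equiv.swap_apply_left 0 j0
  have hττ : ∀ i, τ (τ i) = i := fun i => Equiv.swap_apply_self 0 j0 i
  have hτN : ∀ i, i < N → τ i < N := by
    intro i hi
    change Equiv.swap 0 j0 i < N
    rw [Equiv.swap_apply_def]
    split_ifs <;> omega
  have hτN' : ∀ i, τ i < N → i < N := fun i hi => by
    have := hτN _ hi
    rwa [hττ] at this
  let U : ℕ → c0 𝕜 := fun t => if t = 0 then y else e 𝕜 (τ t)
  have hU0 : U 0 = y := if_pos rfl
  have hUt : ∀ t, t ≠ 0 → U t = e 𝕜 (τ t) := fun t ht => if_neg ht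
  -- coordinates of the partial sums
  have hco : ∀ (a : ℕ → 𝕜) r, 0 < r → ∀ i, (∑ t ∈ Finset.range r, a t • U t) i =
      a 0 * y i + if 0 < τ i ∧ τ i < r then a (τ i) else 0 := by
    intro a r hr i
    obtain ⟨r', rfl⟩ : ∃ r', r = r' + 1 := ⟨r - 1, by omega⟩
    have h1 : (∑ t ∈ Finset.range (r' + 1), a t • U t) i =
        coord 𝕜 i (∑ t ∈ Finset.range (r' + 1), a t • U t) := rfl
    rw [h1, map_sum, Finset.sum_range_succ', hU0]
    have h2 : ∀ t ∈ Finset.range r', coord 𝕜 i (a (t + 1) • U (t + 1)) =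
        if t + 1 = τ i then a (t + 1) else 0 := by
      intro t _
      rw [map_smul, hUt _ (Nat.succ_ne_zero t), coord_apply, e_apply, smul_eq_mul, mul_ite, mul_one,
        mul_zero]
      have : (i = τ (t + 1)) ↔ (t + 1 = τ i) := by
        constructor
        · intro h; rw [h, hττ]
        · intro h; rw [h, hττ]
      simp only [this]
    rw [Finset.sum_congr rfl h2, map_smul, coord_apply, smul_eq_mul, add_comm]
    congr 1
    by_cases h3 : 0 < τ i ∧ τ i < r' + 1
    · rw [if_pos h3, Finset.sum_eq_single (τ i - 1)]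
      · have : τ i - 1 + 1 = τ i := by omega
        rw [this, if_pos rfl]
      · intro t _ ht
        rw [if_neg (by omega)]
      · intro h
        exact absurd (Finset.mem_range.2 (by omega)) h
    · rw [if_neg h3]
      refine Finset.sum_eq_zero fun t ht => ?_
      rw [Finset.mem_range] at ht
      rw [if_neg]
      intro h
      exact h3 (by omega)
  refine ⟨U, hN, hU0, ?_, ?_, ?_, ?_⟩
  · intro t ht
    by_cases h : t = 0
    · rw [h, hU0, hy]
    · rw [hUt t h]
      ext i
      rw [proj_apply, e_apply]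
      split_ifs with h1 h2
      · rfl
      · rfl
      · exfalso
        exact h1 (by rw [‹i = τ t›]; exact hτN t ht)
      · rfl
  · intro t ht
    by_cases h : t = 0
    · rw [h, hU0]; exact hy0
    · rw [hUt t h, ← norm_pos_iff, norm_e]; norm_num
  · intro a r hr
    rcases Nat.eq_zero_or_pos r with h0 | h0
    · rw [h0, Finset.sum_range_zero, norm_zero]; exact norm_nonneg _
    refine c0_norm_le (norm_nonneg _) fun i => ?_
    rw [hco a r h0]
    by_cases h1 : 0 < τ i ∧ τ i < r
    · rw [if_pos h1]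
      have h2 := norm_coe_le (∑ t ∈ Finset.range N, a t • U t) i
      rw [hco a N hN, if_pos ⟨h1.1, h1.2.trans_le hr⟩] at h2
      exact h2
    · rw [if_neg h1, add_zero]
      have h2 := norm_coe_le (∑ t ∈ Finset.range N, a t • U t) j0
      rw [hco a N hN, hτj0, if_neg (by omega), add_zero] at h2
      refine le_trans ?_ h2
      rw [norm_mul, norm_mul, hj0]
      gcongr
      exact norm_coe_le y i
  · intro δ hδ
    let a : ℕ → 𝕜 := fun t => if t = 0 then δ j0 / y j0 else δ (τ t) - δ j0 / y j0 * y (τ t)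
    have ha0 : a 0 = δ j0 / y j0 := if_pos rfl
    have hat : ∀ t, t ≠ 0 → a t = δ (τ t) - δ j0 / y j0 * y (τ t) := fun t ht => if_neg ht
    refine ⟨a, ?_⟩
    ext i
    rw [hco a N hN, ha0]
    by_cases h1 : 0 < τ i ∧ τ i < N
    · rw [if_pos h1, hat _ h1.1.ne', hττ]
      ring
    · rw [if_neg h1, add_zero]
      by_cases h2 : τ i = 0
      · have hi : i = j0 := by rw [← hττ i, h2, hτ0]
        rw [hi]
        field_simp
      · have hi : ¬ i < N := fun h => h1 ⟨Nat.pos_of_ne_zero h2, hτN i h⟩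
        have hδi : δ i = 0 := by rw [← hδ, proj_apply, if_neg hi]
        have hyi : y i = 0 := by rw [← hy, proj_apply, if_neg hi]
        rw [hδi, hyi, mul_zero]

/-- The case of infinite codimension. -/
theorem extends_of_infinite (y : ℕ → c0 𝕜) (hy : IsBasicSeq 𝕜 y)
    (hfin : ∀ n, ∃ N, proj 𝕜 N (y n) = y n)
    (hinf : ¬ FiniteDimensional 𝕜 (c0 𝕜 ⧸ cspan 𝕜 y)) : ExtendsToBasis 𝕜 y := by
  classical
  obtain ⟨N, S, CS, hNm, hN0, hCS, hSn, hSp, hSt, hSy, hy0⟩ := exists_ext y hy hfin
  obtain ⟨z, φ, hφz, hφG⟩ := absorption (cspan 𝕜 y) (cspan_isClosed y) hinf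
  obtain ⟨v, C, hC0, hvn, hvb, hvp, hvt, hvs, hvy⟩ := exists_system y N S CS hCS hSn hSp hSt hSy z φ
    hφz (fun i => hφG _ (mem_cspan y i))
  -- injectivity
  have hinj : ∀ x x', (∀ n, v n x = v n x') → x = x' := by
    intro x x' h
    have h1 := hvb (x - x') 0 (fun n => by rw [map_sub, h n, sub_self, norm_zero])
    rw [mul_zero] at h1
    exact sub_eq_zero.1 (norm_le_zero_iff.1 h1)
  -- the projections
  have hQex : ∀ m x, ∃ x', ∀ n, v n x' = v (min n m) x := by
    intro m x
    refine hvs (fun n => v (min n m) x) (fun n => ?_) ⟨v m x, ?_⟩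
    · exact proj_of_le (hNm (min_le_left n m)) (hvp _ x)
    · refine tendsto_const_nhds.congr' ?_
      filter_upwards [eventually_ge_atTop m] with n hn
      rw [min_eq_right hn]
  choose q hq using hQex
  let Q : ℕ → (c0 𝕜 →L[𝕜] c0 𝕜) := fun m => LinearMap.mkContinuous
    { toFun := fun x => q m x
      map_add' := fun x x' => hinj _ _ fun n => by rw [map_add, hq, hq, hq, map_add]
      map_smul' := fun c x => hinj _ _ fun n => by
        rw [RingHom.id_apply, map_smul, hq, hq, map_smul] } (C * C)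
    (fun x => by
      rw [mul_assoc]
      refine hvb _ _ fun n => ?_
      change ‖v n (q m x)‖ ≤ _
      rw [hq]
      exact ((v _).le_opNorm x).trans (mul_le_mul_of_nonneg_right (hvn _) (norm_nonneg _)))
  have hQ : ∀ m x n, v n (Q m x) = v (min n m) x := fun m x n => hq m x n
  have hv0 : ∀ x, v 0 x = 0 := by
    intro x
    rw [← hvp, hN0, proj_zero]
  have hQ0 : Q 0 = 0 := by
    ext1 x
    refine hinj _ _ fun n => ?_
    rw [hQ, min_eq_right (Nat.zero_le n), hv0]
    exact (map_zero _).symm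
  have hQQ : ∀ n m x, Q n (Q m x) = Q (min n m) x := by
    intro n m x
    refine hinj _ _ fun k => ?_
    rw [hQ, hQ, hQ, min_assoc]
  have hQt : ∀ x, Tendsto (fun m => Q m x) atTop (𝓝 x) := by
    intro x
    obtain ⟨x', hx'⟩ := hvt x
    rw [Metric.tendsto_atTop]
    intro ε hε
    have hpos : 0 < ε / (2 * (C + 1)) := by positivity
    obtain ⟨n0, hn0⟩ := Metric.cauchySeq_iff.1 hx'.cauchySeq (ε / (2 * (C + 1))) hpos
    refine ⟨n0, fun m hm => ?_⟩
    rw [dist_eq_norm]
    have h1 : ‖Q m x - x‖ ≤ C * (ε / (2 * (C + 1))) := by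
      refine hvb _ _ fun n => ?_
      rw [map_sub, hQ]
      rcases le_total n m with h | h
      · rw [min_eq_left h, sub_self, norm_zero]; exact hpos.le
      · rw [min_eq_right h, ← dist_eq_norm]
        exact (hn0 m hm n (hm.trans h)).le
    refine lt_of_le_of_lt h1 ?_
    have h2 : C * (ε / (2 * (C + 1))) = ε * (C / (2 * (C + 1))) := by ring
    rw [h2]
    have h3 : C / (2 * (C + 1)) < 1 := by
      rw [div_lt_one (by positivity)]; linarith
    nlinarith
  -- the supports
  have hyN : ∀ m, proj 𝕜 (N (m + 1)) (y m) = y m := by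
    intro m
    have h1 := hvp (m + 1) (y m)
    rw [hvy, if_pos (Nat.lt_succ_self m)] at h1
    exact h1
  choose U hNpos hU0 hUp hUne hUgr hUspan using fun m =>
    exists_block (N (m + 1)) (y m) (hyN m) (hy0 m)
  -- the block vectors
  have huex : ∀ m t, t < N (m + 1) → ∃ x, ∀ n, v n x = if n ≤ m then 0 else U m t := by
    intro m t ht
    refine hvs (fun n => if n ≤ m then 0 else U m t) (fun n => ?_) ⟨U m t, ?_⟩
    · by_cases h : n ≤ m
      · simp only [if_pos h, map_zero]
      · simp only [if_neg h]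
        exact proj_of_le (hNm (by omega)) (hUp m t ht)
    · refine tendsto_const_nhds.congr' ?_
      filter_upwards [eventually_gt_atTop m] with n hn
      rw [if_neg (by omega)]
  choose! u hu using huex
  have husum : ∀ m (a : ℕ → 𝕜) r, r ≤ N (m + 1) → ∀ n,
      v n (∑ t ∈ Finset.range r, a t • u m t) =
        if n ≤ m then 0 else ∑ t ∈ Finset.range r, a t • U m t := by
    intro m a r hr n
    rw [map_sum]
    by_cases h : n ≤ m
    · rw [if_pos h]
      refine Finset.sum_eq_zero fun t ht => ?_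
      rw [map_smul, hu m t ((Finset.mem_range.1 ht).trans_le hr), if_pos h, smul_zero]
    · rw [if_neg h]
      refine Finset.sum_congr rfl fun t ht => ?_
      rw [map_smul, hu m t ((Finset.mem_range.1 ht).trans_le hr), if_neg h]
  obtain ⟨x, hx, κ, hκ, hκx⟩ := isBasis_of_blocks Q hQ0 hQQ hQt (fun m => N (m + 1)) hNpos u
    (fun m t ht => hinj _ _ fun n => by
      rw [hQ, hu m t ht, hu m t ht]
      by_cases h : n ≤ m
      · rw [if_pos (by omega), if_pos h]
      · rw [if_neg (by omega), if_neg h])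
    (fun m t ht => hinj _ _ fun n => by
      rw [hQ, hu m t ht, if_pos (by omega), map_zero])
    (fun m t ht h0 => by
      have h1 := hu m t ht (m + 1)
      rw [h0, map_zero, if_neg (by omega)] at h1
      exact hUne m t ht h1.symm)
    (C * C)
    (fun m a r hr => by
      have h1 : ‖∑ t ∈ Finset.range (N (m + 1)), a t • U m t‖ ≤
          C * ‖∑ t ∈ Finset.range (N (m + 1)), a t • u m t‖ := by
        have h2 := husum m a (N (m + 1)) le_rfl (m + 1)
        rw [if_neg (by omega)] at h2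
        rw [← h2]
        exact ((v _).le_opNorm _).trans (mul_le_mul_of_nonneg_right (hvn _) (norm_nonneg _))
      rw [mul_assoc]
      refine hvb _ _ fun n => ?_
      rw [husum m a r hr]
      split_ifs with h
      · rw [norm_zero]; positivity
      · exact (hUgr m a r hr).trans h1)
    (fun m w => by
      have hδ : proj 𝕜 (N (m + 1)) (v (m + 1) w - v m w) = v (m + 1) w - v m w := by
        rw [map_sub, hvp, proj_of_le (hNm (Nat.le_succ m)) (hvp m w)]
      obtain ⟨a, ha⟩ := hUspan m _ hδ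
      refine ⟨a, hinj _ _ fun n => ?_⟩
      rw [husum m a _ le_rfl, map_sub, hQ, hQ, ← ha]
      by_cases h : n ≤ m
      · rw [if_pos h, min_eq_left h, min_eq_left (h.trans (Nat.le_succ m)), sub_self]
      · rw [if_neg h, min_eq_right (by omega), min_eq_right (by omega)])
  refine ⟨x, hx, κ, hκ, fun m => ?_⟩
  rw [hκx]
  refine hinj _ _ fun n => ?_
  rw [hvy, hu m 0 (hNpos m), hU0]
  by_cases h : n ≤ m
  · rw [if_neg (by omega), if_pos h]
  · rw [if_pos (by omega), if_neg h]

end Pool.Agent.H14.C0
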