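import Pool.Agent.H14.C0.Basic
import Pool.Agent.H14.C0.Block

/-!
# Perturbing a basic sequence of `c_0` to finitely supported vectors
-/

open Filter Topology

namespace Pool.Agent.H14.C0

open Pool.Agent.H14.NP

variable {𝕜 : Type*} [RCLike 𝕜]

/-- The closed span of a sequence. -/
def cspan (𝕜 : Type*) [RCLike 𝕜] {E : Type*} [NormedAddCommGroup E] [NormedSpace 𝕜 E] (y : ℕ → E) :
    Submodule 𝕜 E := (Submodule.span 𝕜 (Set.range y)).topologicalClosure

section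

variable {E : Type*} [NormedAddCommGroup E] [NormedSpace 𝕜 E]

theorem cspan_isClosed (y : ℕ → E) : IsClosed (cspan 𝕜 y : Set E) :=
  Submodule.isClosed_topologicalClosure _

theorem mem_cspan (y : ℕ → E) (n : ℕ) : y n ∈ cspan 𝕜 y :=
  Submodule.le_topologicalClosure _ (Submodule.subset_span ⟨n, rfl⟩)

theorem isBasis_cspan {y : ℕ → E} (hy : IsBasicSeq 𝕜 y) :
    IsBasis 𝕜 (fun n => (⟨y n, mem_cspan y n⟩ : cspan 𝕜 y)) := by
  intro v
  obtain ⟨a, ha, hu⟩ := hy v v.2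
  have hsum : ∀ (c : ℕ → 𝕜) n, ((∑ i ∈ Finset.range n, c i • (⟨y i, mem_cspan y i⟩ : cspan 𝕜 y) :
      cspan 𝕜 y) : E) = ∑ i ∈ Finset.range n, c i • y i := by
    intro c n
    rw [Submodule.coe_sum]
    rfl
  refine ⟨a, tendsto_subtype_rng.2 (ha.congr fun n => (hsum a n).symm), fun c hc => hu c ?_⟩
  exact (tendsto_subtype_rng.1 hc).congr fun n => hsum c n

end

/-- A basis vector is nonzero. -/
theorem IsBasis.ne_zero {E : Type*} [NormedAddCommGroup E] [NormedSpace 𝕜 E] {x : ℕ → E}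
    (hx : IsBasis 𝕜 x) (i : ℕ) : x i ≠ 0 := by
  classical
  intro h0
  obtain ⟨a, ha, hu⟩ := hx 0
  have h1 := hu 0 (by simp)
  have h2 := hu (Pi.single i 1) (by
    refine tendsto_const_nhds.congr fun n => ?_
    symm
    refine Finset.sum_eq_zero fun j _ => ?_
    by_cases hj : j = i
    · subst hj; rw [h0, smul_zero]
    · simp [hj])
  rw [← h1] at h2
  have := congrFun h2 i
  simp at this

theorem perturb (y : ℕ → c0 𝕜) (hy : IsBasicSeq 𝕜 y) :
    ∃ L : c0 𝕜 ≃L[𝕜] c0 𝕜, ∀ n, ∃ N, proj 𝕜 N (L (y n)) = L (y n) := by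
  classical
  have hG := isBasis_cspan hy
  have hcomp : CompleteSpace (cspan 𝕜 y) := (cspan_isClosed y).completeSpace_coe
  obtain ⟨P, CP, hCP0, hPC, hPy, hPt, hPf, hPP⟩ := hG.exists_proj
  have hne : ∀ n, y n ≠ 0 := by
    intro n h0
    exact IsBasis.ne_zero hG n (Subtype.ext h0)
  -- functionals
  have hh : ∀ n, ∃ h : c0 𝕜 →L[𝕜] 𝕜, h (y n) = 1 := by
    intro n
    obtain ⟨g, -, hg⟩ := exists_dual_vector 𝕜 (y n) (norm_ne_zero_iff.2 (hne n))
    have hnn : (‖y n‖ : 𝕜) ≠ 0 := by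
      rw [Ne, RCLike.ofReal_eq_zero]; exact norm_ne_zero_iff.2 (hne n)
    refine ⟨(‖y n‖ : 𝕜)⁻¹ • g, ?_⟩
    rw [_root_.smul_apply, hg, smul_eq_mul, inv_mul_cancel₀ hnn]
  choose h hh using hh
  let ys : ℕ → (cspan 𝕜 y →L[𝕜] 𝕜) := fun n =>
    (h n).comp ((cspan 𝕜 y).subtypeL.comp (P (n + 1) - P n))
  have hys : ∀ n m, ys n ⟨y m, mem_cspan y m⟩ = if m = n then 1 else 0 := by
    intro n m
    change h n ((P (n + 1) ⟨y m, mem_cspan y m⟩ - P n ⟨y m, mem_cspan y m⟩ : cspan 𝕜 y) : c0 𝕜) = _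
    rw [hPy, hPy]
    by_cases h1 : m = n
    · subst h1
      rw [if_pos (Nat.lt_succ_self m), if_neg (lt_irrefl m), sub_zero, if_pos rfl]
      exact hh m
    · rw [if_neg h1]
      rcases lt_or_gt_of_ne h1 with h2 | h2
      · rw [if_pos (by omega), if_pos h2, sub_self]
        exact map_zero _
      · rw [if_neg (by omega), if_neg (by omega), sub_self]
        exact map_zero _
  choose Y hY hYn using fun n => exists_extension_norm_eq (cspan 𝕜 y) (ys n)
  have hYy : ∀ n m, Y n (y m) = if m = n then 1 else 0 := by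
    intro n m
    rw [← hys n m, ← hY n]
  have hN : ∀ n, ∃ N, ‖Y n‖ * ‖proj 𝕜 N (y n) - y n‖ ≤ 1 / 4 * (1 / 2) ^ n := by
    intro n
    have h1 : Tendsto (fun N => ‖Y n‖ * ‖proj 𝕜 N (y n) - y n‖) atTop (𝓝 0) := by
      have h2 := (((proj_tendsto (y n)).sub (tendsto_const_nhds (x := y n))).norm).const_mul ‖Y n‖
      rw [sub_self, norm_zero, mul_zero] at h2
      exact h2
    exact (h1.eventually (ge_mem_nhds (show (0 : ℝ) < 1 / 4 * (1 / 2) ^ n by positivity))).exists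
  choose N hN using hN
  let w : ℕ → c0 𝕜 := fun n => proj 𝕜 (N n) (y n) - y n
  let T : ℕ → (c0 𝕜 →L[𝕜] c0 𝕜) := fun n => (Y n).smulRight (w n)
  have hTn : ∀ n, ‖T n‖ ≤ 1 / 4 * (1 / 2) ^ n := by
    intro n
    rw [ContinuousLinearMap.norm_smulRight_apply]
    exact hN n
  have hsum : Summable fun n : ℕ => 1 / 4 * (1 / 2 : ℝ) ^ n := summable_geometric_two.mul_left _
  have hT : Summable T := Summable.of_norm_bounded hsum hTn
  let K : c0 𝕜 →L[𝕜] c0 𝕜 := ∑' n, T n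
  have hK : ‖K‖ ≤ 1 / 2 := by
    refine (tsum_of_norm_bounded hsum.hasSum hTn).trans ?_
    rw [tsum_mul_left, tsum_geometric_two]
    norm_num
  have hKy : ∀ m, K (y m) = w m := by
    intro m
    have h1 : K (y m) = ∑' n, T n (y m) := by
      have := (ContinuousLinearMap.apply 𝕜 (c0 𝕜) (y m)).map_tsum hT
      exact this
    rw [h1, tsum_eq_single m]
    · change Y m (y m) • w m = w m
      rw [hYy, if_pos rfl, one_smul]
    · intro n hn
      change Y n (y m) • w n = 0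
      rw [hYy, if_neg hn.symm, zero_smul]
  let u := Units.oneSub (-K) (by rw [norm_neg]; exact lt_of_le_of_lt hK (by norm_num))
  have hu : (u : c0 𝕜 →L[𝕜] c0 𝕜) = 1 + K := by
    change 1 - (-K) = 1 + K
    rw [sub_neg_eq_add]
  let L : c0 𝕜 ≃L[𝕜] c0 𝕜 := ContinuousLinearEquiv.unitsEquiv 𝕜 (c0 𝕜) u
  have hL : ∀ x, L x = x + K x := by
    intro x
    change (u : c0 𝕜 →L[𝕜] c0 𝕜) x = _
    rw [hu]
    rfl
  refine ⟨L, fun n => ⟨N n, ?_⟩⟩
  have h2 : L (y n) = proj 𝕜 (N n) (y n) := by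
    rw [hL, hKy]
    change y n + (proj 𝕜 (N n) (y n) - y n) = _
    abel
  rw [h2]
  ext i
  rw [proj_apply, proj_apply]
  split_ifs <;> rfl

end Pool.Agent.H14.C0
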