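import Pool.Agent.H14.C0.Extend

/-!
# A coordinate system of `c_0` adapted to a basic sequence
-/

open Filter Topology

namespace Pool.Agent.H14.C0

open Pool.Agent.H14.NP

variable {𝕜 : Type*} [RCLike 𝕜]

/-- Functions on a countable set tending to zero, transported to `c_0`. -/
theorem tendsto_transport {A : Type*} (ρ : A ≃ ℕ) (h : A → 𝕜)
    (hh : ∀ ε : ℝ, 0 < ε → {i | ε ≤ ‖h i‖}.Finite) :
    Tendsto (fun k => h (ρ.symm k)) atTop (𝓝 0) := by
  rw [← Nat.cofinite_eq_atTop, tendsto_zero_iff_norm_tendsto_zero, Metric.tendsto_nhds]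
  intro ε hε
  rw [eventually_cofinite]
  refine ((hh ε hε).image ρ).subset fun k hk => ?_
  refine ⟨ρ.symm k, ?_, by simp⟩
  have hk' : ¬ dist ‖h (ρ.symm k)‖ 0 < ε := hk
  rw [dist_zero_right, norm_norm, not_lt] at hk'
  exact hk'

theorem finite_ge (a : c0 𝕜) (ε : ℝ) (hε : 0 < ε) : {i | ε ≤ ‖a i‖}.Finite := by
  have h1 := (c0_tendsto a).norm
  rw [norm_zero] at h1
  obtain ⟨N, hN⟩ := eventually_atTop.1 (h1.eventually (gt_mem_nhds hε))
  refine (Set.finite_Iio N).subset fun i hi => ?_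
  by_contra hcon
  have hi' : ε ≤ ‖a i‖ := hi
  have := hN i (not_lt.1 hcon)
  linarith

/-- The adapted coordinate system. -/
theorem exists_system (y : ℕ → c0 𝕜) (N : ℕ → ℕ) (S : ℕ → c0 𝕜 →L[𝕜] c0 𝕜) (CS : ℝ)
    (hCS : 0 ≤ CS) (hSn : ∀ n, ‖S n‖ ≤ CS) (hSp : ∀ n x, proj 𝕜 (N n) (S n x) = S n x)
    (hSt : ∀ x, Tendsto (fun n => S n x) atTop (𝓝 x))
    (hSy : ∀ n i, S n (y i) = if i < n then y i else 0)
    (z φ : c0 𝕜 →L[𝕜] c0 𝕜) (hφz : ∀ a, φ (z a) = a) (hφy : ∀ i, φ (y i) = 0) :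
    ∃ (v : ℕ → c0 𝕜 →L[𝕜] c0 𝕜) (C : ℝ), 0 ≤ C ∧ (∀ n, ‖v n‖ ≤ C) ∧
      (∀ x B, (∀ n, ‖v n x‖ ≤ B) → ‖x‖ ≤ C * B) ∧
      (∀ n x, proj 𝕜 (N n) (v n x) = v n x) ∧ (∀ x, ∃ x', Tendsto (fun n => v n x) atTop (𝓝 x')) ∧
      (∀ u : ℕ → c0 𝕜, (∀ n, proj 𝕜 (N n) (u n) = u n) → (∃ x', Tendsto u atTop (𝓝 x')) →
        ∃ x, ∀ n, v n x = u n) ∧
      (∀ n i, v n (y i) = if i < n then y i else 0) := by
  classical
  -- the bijection
  let A : Type := ℕ ⊕ (Σ n, Fin (N n))
  obtain ⟨ρ⟩ : Nonempty (A ≃ ℕ) := by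
    have : Infinite A := inferInstanceAs (Infinite (ℕ ⊕ (Σ n, Fin (N n))))
    have : Countable A := inferInstanceAs (Countable (ℕ ⊕ (Σ n, Fin (N n))))
    exact nonempty_equiv_of_countable
  -- first component
  have hinl : Function.Injective (fun k : ℕ => ρ (Sum.inl k)) := fun a b h =>
    Sum.inl_injective (ρ.injective h)
  let c1 : c0 𝕜 →L[𝕜] c0 𝕜 := mkOp (fun k => (coord 𝕜 (ρ (Sum.inl k)) : c0 𝕜 →ₗ[𝕜] 𝕜)) 1
    zero_le_one (fun k a => by rw [one_mul]; exact norm_coe_le _ _)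
    (fun a => by
      have h1 := hinl.tendsto_cofinite
      rw [Nat.cofinite_eq_atTop] at h1
      exact (c0_tendsto a).comp h1)
  have hc1 : ∀ a k, c1 a k = a (ρ (Sum.inl k)) := fun a k => rfl
  have hc1n : ‖c1‖ ≤ 1 := norm_mkOp_le _ _ _ _ _
  -- second component
  let W : ℕ → (c0 𝕜 →L[𝕜] c0 𝕜) := fun n =>
    mkOp (fun j => if h : j < N n then (coord 𝕜 (ρ (Sum.inr ⟨n, ⟨j, h⟩⟩)) : c0 𝕜 →ₗ[𝕜] 𝕜) else 0) 1
      zero_le_one (fun j a => by
        rw [one_mul]
        split_ifs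
        · exact norm_coe_le _ _
        · change ‖(0 : 𝕜)‖ ≤ _
          rw [norm_zero]; positivity)
      (fun a => by
        refine tendsto_const_nhds.congr' ?_
        filter_upwards [eventually_ge_atTop (N n)] with j hj
        rw [dif_neg (not_lt.2 hj)]
        rfl)
  have hW : ∀ n a j (h : j < N n), W n a j = a (ρ (Sum.inr ⟨n, ⟨j, h⟩⟩)) := by
    intro n a j h
    change (if h : j < N n then (coord 𝕜 (ρ (Sum.inr ⟨n, ⟨j, h⟩⟩)) : c0 𝕜 →ₗ[𝕜] 𝕜) else 0) a = _
    rw [dif_pos h]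
    rfl
  have hW' : ∀ n a j, ¬ j < N n → W n a j = 0 := by
    intro n a j h
    change (if h : j < N n then (coord 𝕜 (ρ (Sum.inr ⟨n, ⟨j, h⟩⟩)) : c0 𝕜 →ₗ[𝕜] 𝕜) else 0) a = _
    rw [dif_neg h]
    rfl
  have hWn : ∀ n, ‖W n‖ ≤ 1 := fun n => norm_mkOp_le _ _ _ _ _
  have hWp : ∀ n a, proj 𝕜 (N n) (W n a) = W n a := by
    intro n a
    ext j
    rw [proj_apply]
    split_ifs with h
    · rfl
    · rw [hW' n a j h]
  have hWt : ∀ a, Tendsto (fun n => W n a) atTop (𝓝 0) := by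
    intro a
    rw [Metric.tendsto_atTop]
    intro ε hε
    have hfin := finite_ge a (ε / 2) (half_pos hε)
    -- the set of bad `n`
    have hbad : ((fun k => match ρ.symm k with
      | Sum.inl _ => 0
      | Sum.inr s => s.1) '' {i | ε / 2 ≤ ‖a i‖}).Finite := hfin.image _
    obtain ⟨n0, hn0⟩ := hbad.bddAbove
    refine ⟨n0 + 1, fun n hn => ?_⟩
    rw [dist_zero_right]
    refine lt_of_le_of_lt (c0_norm_le (C := ε / 2) (by positivity) fun j => ?_) (by linarith)
    by_cases hj : j < N n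
    · rw [hW n a j hj]
      by_contra hcon
      push Not at hcon
      have h1 : n ≤ n0 := by
        refine hn0 ⟨ρ (Sum.inr ⟨n, ⟨j, hj⟩⟩), hcon.le, ?_⟩
        simp
      omega
    · rw [hW' n a j hj, norm_zero]; positivity
  -- the operators
  let X : c0 𝕜 →L[𝕜] c0 𝕜 := ContinuousLinearMap.id 𝕜 _ - z.comp φ + z.comp (c1.comp φ)
  have hX : ∀ x, X x = x - z (φ x) + z (c1 (φ x)) := fun x => rfl
  have hφX : ∀ x, φ (X x) = c1 (φ x) := by
    intro x
    rw [hX, map_add, map_sub, hφz, hφz, sub_self, zero_add]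
  let v : ℕ → (c0 𝕜 →L[𝕜] c0 𝕜) := fun n => (S n).comp X + (W n).comp φ
  have hv : ∀ n x, v n x = S n (X x) + W n (φ x) := fun n x => rfl
  have hvt : ∀ x, Tendsto (fun n => v n x) atTop (𝓝 (X x)) := by
    intro x
    have := (hSt (X x)).add (hWt (φ x))
    rw [add_zero] at this
    exact this
  set C1 := CS * ‖X‖ + ‖φ‖ with hC1
  set C2 := 1 + ‖z‖ * (‖φ‖ + 1 + CS) + ‖z‖ * ‖φ‖ with hC2
  have hC1p : 0 ≤ C1 := by positivity
  have hC2p : 0 ≤ C2 := by positivity
  refine ⟨v, max C1 C2, le_max_of_le_left hC1p, ?_, ?_, ?_, fun x => ⟨X x, hvt x⟩, ?_, ?_⟩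
  · intro n
    refine le_trans ?_ (le_max_left _ _)
    calc ‖v n‖ ≤ ‖(S n).comp X‖ + ‖(W n).comp φ‖ := norm_add_le _ _
      _ ≤ CS * ‖X‖ + 1 * ‖φ‖ := by
          refine add_le_add ((ContinuousLinearMap.opNorm_comp_le _ _).trans ?_)
            ((ContinuousLinearMap.opNorm_comp_le _ _).trans ?_)
          · exact mul_le_mul_of_nonneg_right (hSn n) (norm_nonneg _)
          · exact mul_le_mul_of_nonneg_right (hWn n) (norm_nonneg _)
      _ = C1 := by rw [one_mul]
  · intro x B hB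
    have hB0 : 0 ≤ B := (norm_nonneg _).trans (hB 0)
    have hXB : ‖X x‖ ≤ B := le_of_tendsto (hvt x).norm (Eventually.of_forall hB)
    have hφXB : ‖φ (X x)‖ ≤ ‖φ‖ * B := (φ.le_opNorm _).trans (by gcongr)
    have hφx : ‖φ x‖ ≤ (‖φ‖ + 1 + CS) * B := by
      refine c0_norm_le (by positivity) fun k => ?_
      obtain ⟨i, rfl⟩ := ρ.surjective k
      rcases i with k' | ⟨n, j, hj⟩
      · have h1 : φ x (ρ (Sum.inl k')) = φ (X x) k' := by rw [hφX, hc1]
        rw [h1]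
        refine (norm_coe_le _ _).trans (hφXB.trans ?_)
        nlinarith
      · have h1 : φ x (ρ (Sum.inr ⟨n, ⟨j, hj⟩⟩)) = (v n x - S n (X x)) j := by
          rw [hv, add_sub_cancel_left, hW n _ j hj]
        rw [h1]
        refine (norm_coe_le _ _).trans ?_
        calc ‖v n x - S n (X x)‖ ≤ ‖v n x‖ + ‖S n (X x)‖ := norm_sub_le _ _
          _ ≤ B + CS * B := by
              refine add_le_add (hB n) (((S n).le_opNorm _).trans ?_)
              exact mul_le_mul (hSn n) hXB (norm_nonneg _) hCS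
          _ ≤ (‖φ‖ + 1 + CS) * B := by nlinarith [norm_nonneg φ]
    have hx : x = X x + z (φ x) - z (φ (X x)) := by
      rw [hφX, hX]; abel
    calc ‖x‖ = ‖X x + z (φ x) - z (φ (X x))‖ := by rw [← hx]
      _ ≤ ‖X x‖ + ‖z (φ x)‖ + ‖z (φ (X x))‖ :=
          (norm_sub_le _ _).trans (add_le_add (norm_add_le _ _) le_rfl)
      _ ≤ B + ‖z‖ * ((‖φ‖ + 1 + CS) * B) + ‖z‖ * (‖φ‖ * B) := by
          refine add_le_add (add_le_add hXB ((z.le_opNorm _).trans ?_)) ((z.le_opNorm _).trans ?_)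
          · exact mul_le_mul_of_nonneg_left hφx (norm_nonneg _)
          · exact mul_le_mul_of_nonneg_left hφXB (norm_nonneg _)
      _ = C2 * B := by rw [hC2]; ring
      _ ≤ max C1 C2 * B := by gcongr; exact le_max_right _ _
  · intro n x
    rw [hv, map_add, hSp, hWp]
  · intro u hu hut
    obtain ⟨x, hx⟩ := hut
    -- the null part
    let w : ℕ → c0 𝕜 := fun n => u n - S n x
    have hw : Tendsto w atTop (𝓝 0) := by
      have := hx.sub (hSt x)
      rw [sub_self] at this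
      exact this
    have hwp : ∀ n, proj 𝕜 (N n) (w n) = w n := by
      intro n
      change proj 𝕜 (N n) (u n - S n x) = u n - S n x
      rw [map_sub, hu, hSp]
    let h : A → 𝕜 := fun i => match i with
      | Sum.inl k => φ x k
      | Sum.inr s => w s.1 s.2
    have hfin : ∀ ε : ℝ, 0 < ε → {i | ε ≤ ‖h i‖}.Finite := by
      intro ε hε
      have hw' := hw.norm
      rw [norm_zero] at hw'
      obtain ⟨n0, hn0⟩ := eventually_atTop.1 (hw'.eventually (gt_mem_nhds hε))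
      have hsub : {i | ε ≤ ‖h i‖} ⊆ (Sum.inl '' {k | ε ≤ ‖φ x k‖}) ∪
          (Sum.inr '' (⋃ n ∈ Finset.range n0, Set.range fun j : Fin (N n) =>
            (⟨n, j⟩ : Σ n, Fin (N n)))) := by
        intro i hi
        rcases i with k | ⟨n, j⟩
        · exact Or.inl ⟨k, hi, rfl⟩
        · refine Or.inr ⟨⟨n, j⟩, ?_, rfl⟩
          have hi' : ε ≤ ‖w n j‖ := hi
          have hn : n < n0 := by
            by_contra hcon
            have := hn0 n (not_lt.1 hcon)
            have h2 := norm_coe_le (w n) j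
            linarith
          simp only [Set.mem_iUnion]
          exact ⟨n, Finset.mem_range.2 hn, ⟨j, rfl⟩⟩
      refine Set.Finite.subset ?_ hsub
      refine ((finite_ge (φ x) ε hε).image _).union (Set.Finite.image _ ?_)
      exact (Finset.finite_toSet _).biUnion fun n _ => Set.finite_range _
    let a : c0 𝕜 := mk0 (fun k => h (ρ.symm k)) (tendsto_transport ρ h hfin)
    have ha : ∀ i, a (ρ i) = h i := by
      intro i
      change h (ρ.symm (ρ i)) = h i
      rw [ρ.symm_apply_apply]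
    have hc1a : c1 a = φ x := by
      ext k
      rw [hc1, ha]
    have hWa : ∀ n, W n a = w n := by
      intro n
      ext j
      by_cases hj : j < N n
      · rw [hW n a j hj, ha]
      · rw [hW' n a j hj, ← hwp n, proj_apply, if_neg hj]
    refine ⟨x - z (φ x) + z a, fun n => ?_⟩
    have hφ' : φ (x - z (φ x) + z a) = a := by
      rw [map_add, map_sub, hφz, hφz, sub_self, zero_add]
    have hX' : X (x - z (φ x) + z a) = x := by
      rw [hX, hφ', hc1a]; abel
    rw [hv, hX', hφ', hWa]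
    change S n x + (u n - S n x) = u n
    abel
  · intro n i
    have hXy : X (y i) = y i := by
      rw [hX, hφy, map_zero, map_zero, map_zero, sub_zero, add_zero]
    rw [hv, hXy, hφy, map_zero, add_zero, hSy]

end Pool.Agent.H14.C0
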